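import Mathlib

/-!
# The rank of an alternating bilinear form is even
-/

set_option autoImplicit false

namespace Pool.Agent.MP_5fbfc2_al

universe u v

theorem even_finrank_range_of_isAlt_aux {K : Type u} [Field K] (n : ℕ) :
    ∀ (V : Type v) [AddCommGroup V] [Module K V] [FiniteDimensional K V]
      (B : LinearMap.BilinForm K V), B.IsAlt → Module.finrank K V = n →
      Even (Module.finrank K (LinearMap.range B)) := by
  induction n using Nat.strong_induction_on with
  | _ n ih =>
  intro V _ _ _ B hB hn
  by_cases h0 : B = 0
  · have h1 : LinearMap.range B = ⊥ := by rw [h0]; exact LinearMap.range_zero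
    rw [h1, finrank_bot]
    exact Even.zero
  · obtain ⟨x, y, hc⟩ : ∃ x y : V, B x y ≠ 0 := by
      by_contra hcon
      push Not at hcon
      exact h0 (LinearMap.ext fun x => LinearMap.ext fun y => by simpa using hcon x y)
    have hsymm : ∀ u w : V, B u w = - B w u := fun u w => by
      rw [← LinearMap.BilinForm.IsAlt.neg_eq hB u w, neg_neg]
    have hself : ∀ u : V, B u u = 0 := fun u => hB u
    have hyx : B y x = - B x y := hsymm y x
    let f : V →ₗ[K] K × K := LinearMap.prod (B x) (B y)
    have hf : ∀ v, f v = (B x v, B y v) := fun v => rfl
    have hsurj : LinearMap.range f = ⊤ := by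
      rw [LinearMap.range_eq_top]
      rintro ⟨a, b⟩
      refine ⟨(a / B x y) • y - (b / B x y) • x, ?_⟩
      rw [hf]
      simp only [map_sub, map_smul, smul_eq_mul, hself, hyx, mul_zero, sub_zero, zero_sub]
      rw [div_mul_cancel₀ a hc]
      have : -(b / B x y * -B x y) = b := by rw [mul_neg, neg_neg, div_mul_cancel₀ b hc]
      rw [this]
    let V' : Submodule K V := LinearMap.ker f
    have hV' : ∀ v : V, v ∈ V' ↔ B x v = 0 ∧ B y v = 0 := fun v => by
      rw [LinearMap.mem_ker, hf, Prod.mk_eq_zero]
    have hdim : 2 + Module.finrank K V' = n := by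
      have h := LinearMap.finrank_range_add_finrank_ker f
      rw [hsurj, finrank_top, Module.finrank_prod, Module.finrank_self, hn] at h
      exact h
    let B' : LinearMap.BilinForm K V' := B.domRestrict₁₂ V' V'
    have hB'ap : ∀ u w : V', B' u w = B u w := fun u w => rfl
    have hB' : B'.IsAlt := fun u => by rw [hB'ap]; exact hself _
    have hker : (LinearMap.ker B').map V'.subtype = LinearMap.ker B := by
      ext v
      rw [Submodule.mem_map]
      constructor
      · rintro ⟨u, hu, rfl⟩
        rw [LinearMap.mem_ker] at hu ⊢
        have hu1 : B (u : V) x = 0 := by rw [hsymm, ((hV' u).1 u.2).1, neg_zero]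
        have hu2 : B (u : V) y = 0 := by rw [hsymm, ((hV' u).1 u.2).2, neg_zero]
        ext w
        rw [Submodule.subtype_apply, LinearMap.zero_apply]
        have hw : w - ((B x w / B x y) • y - (B y w / B x y) • x) ∈ V' := by
          rw [hV']
          simp only [map_sub, map_smul, smul_eq_mul, hself, hyx, mul_zero, sub_zero, zero_sub]
          constructor
          · rw [div_mul_cancel₀ _ hc, sub_self]
          · rw [mul_neg, neg_neg, div_mul_cancel₀ _ hc, sub_self]
        have h1 : B' u ⟨_, hw⟩ = 0 := by rw [hu, LinearMap.zero_apply]
        rw [hB'ap] at h1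
        simp only [map_sub, map_smul, smul_eq_mul, hu1, hu2, mul_zero, sub_zero] at h1
        exact h1
      · intro hv
        rw [LinearMap.mem_ker] at hv
        have hvV : v ∈ V' := by
          rw [hV']
          constructor
          · rw [hsymm, hv, LinearMap.zero_apply, neg_zero]
          · rw [hsymm, hv, LinearMap.zero_apply, neg_zero]
        refine ⟨⟨v, hvV⟩, ?_, rfl⟩
        rw [LinearMap.mem_ker]
        ext w
        rw [hB'ap, hv, LinearMap.zero_apply, LinearMap.zero_apply]
    have hk : Module.finrank K (LinearMap.ker B) = Module.finrank K (LinearMap.ker B') := by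
      rw [← hker]
      exact Submodule.finrank_map_subtype_eq V' (LinearMap.ker B')
    have hr := LinearMap.finrank_range_add_finrank_ker B
    have hr' := LinearMap.finrank_range_add_finrank_ker B'
    have hev := ih (Module.finrank K V') (by omega) V' B' hB' rfl
    have : Module.finrank K (LinearMap.range B) = Module.finrank K (LinearMap.range B') + 2 := by
      omega
    rw [this]
    exact hev.add (by decide)

/-- The rank of an alternating bilinear form on a finite dimensional vector space is even. -/
theorem even_finrank_range_of_isAlt {K : Type u} {V : Type v} [Field K] [AddCommGroup V]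
    [Module K V] [FiniteDimensional K V] (B : LinearMap.BilinForm K V) (hB : B.IsAlt) :
    Even (Module.finrank K (LinearMap.range B)) :=
  even_finrank_range_of_isAlt_aux _ V B hB rfl

end Pool.Agent.MP_5fbfc2_al
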