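import Mathlib

set_option autoImplicit false

namespace Pool.Agent.Lib.MP_5fbfc2_al

open Classical in
/-- The row of the commuting matrix of `G` at `g`: the value at `h` is `1` if `g h = h g` and `0`
otherwise. -/
noncomputable def commRow {G : Type*} [Group G] (g : G) : G → ℤ :=
  fun h => if g * h = h * g then 1 else 0

/-- The commuting difference lattice `M(G)`: the `ℤ`-span of all differences of rows. -/
def diffLattice (G : Type*) [Group G] : Submodule ℤ (G → ℤ) :=
  Submodule.span ℤ {v | ∃ g g' : G, v = commRow g - commRow g'}

/-- The rank of `M(G)` over `ℚ`: the dimension of its `ℚ`-span in `ℚ^G`. -/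
noncomputable def ratRank (G : Type*) [Group G] : ℕ :=
  Module.finrank ℚ (Submodule.span ℚ
    {u : G → ℚ | ∃ v ∈ diffLattice G, u = fun h => (v h : ℚ)})

/-- The rank of `M(G)` modulo `p`: the dimension of (the span of) its image in `(ZMod p)^G`. -/
noncomputable def modRank (G : Type*) [Group G] (p : ℕ) : ℕ :=
  Module.finrank (ZMod p) (Submodule.span (ZMod p)
    {u : G → ZMod p | ∃ v ∈ diffLattice G, u = fun h => (v h : ZMod p)})

/-- The commuting conductor of `G`: the primes `p` modulo which `M(G)` drops rank. -/
def Ccomm (G : Type*) [Group G] : Set ℕ :=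
  {p | p.Prime ∧ modRank G p < ratRank G}

end Pool.Agent.Lib.MP_5fbfc2_al
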