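import Mathlib
import Pool.Agent.Lib.MP_5fbfc2_al.Defs

set_option autoImplicit false

namespace Pool.Agent.Lib.MP_5fbfc2_al

/-- Independence modulo a prime implies independence over the integers. -/
theorem linInd_int {κ ι : Type*} (p : ℕ) [hp : Fact p.Prime] (v : κ → ι → ℤ)
    (h : LinearIndependent (ZMod p) (fun k => (fun i => (v k i : ZMod p)))) :
    LinearIndependent ℤ v := by
  rw [linearIndependent_iff'] at h ⊢
  intro s
  have key : ∀ n : ℕ, ∀ g : κ → ℤ, ∑ k ∈ s, g k • v k = 0 → ∀ k ∈ s, (p : ℤ) ^ n ∣ g k := by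
    intro n
    induction n with
    | zero => intro g _ k _; simp
    | succ n ih =>
      intro g hg
      have h1 : ∀ k ∈ s, (p : ℤ) ∣ g k := by
        have h2 := h s (fun k => (g k : ZMod p)) (by
          funext i
          have h3 := congrFun hg i
          simp only [Finset.sum_apply, Pi.smul_apply, smul_eq_mul, Pi.zero_apply] at h3 ⊢
          have h4 : ((∑ k ∈ s, g k * v k i : ℤ) : ZMod p) = ((0 : ℤ) : ZMod p) := by rw [h3]
          push_cast at h4
          exact h4)
        intro k hk
        exact (ZMod.intCast_zmod_eq_zero_iff_dvd (g k) p).1 (h2 k hk)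
      have hdiv : ∀ k ∈ s, g k = (p : ℤ) * (g k / p) := by
        intro k hk
        exact (Int.mul_ediv_cancel' (h1 k hk)).symm
      have hg' : ∑ k ∈ s, (g k / p) • v k = 0 := by
        funext i
        have h3 := congrFun hg i
        simp only [Finset.sum_apply, Pi.smul_apply, smul_eq_mul, Pi.zero_apply] at h3 ⊢
        have h5 : (p : ℤ) * ∑ k ∈ s, (g k / p) * v k i = 0 := by
          rw [← h3, Finset.mul_sum]
          refine Finset.sum_congr rfl fun k hk => ?_
          rw [← mul_assoc, ← hdiv k hk]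
        have hp0 : (p : ℤ) ≠ 0 := by exact_mod_cast hp.out.ne_zero
        exact (mul_eq_zero.1 h5).resolve_left hp0
      intro k hk
      rw [hdiv k hk, pow_succ, mul_comm]
      exact mul_dvd_mul_left _ (ih _ hg' k hk)
  intro g hg k hk
  by_contra hne
  have h1 := key (g k).natAbs g hg k hk
  have h2 : (p ^ (g k).natAbs : ℕ) ∣ (g k).natAbs := by
    have := Int.natAbs_dvd_natAbs.2 h1
    rwa [Int.natAbs_pow, Int.natAbs_natCast] at this
  have h3 : (g k).natAbs < p ^ (g k).natAbs := Nat.lt_pow_self hp.out.one_lt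
  have h4 : 0 < (g k).natAbs := Int.natAbs_pos.2 hne
  exact absurd (Nat.le_of_dvd h4 h2) (not_le.2 h3)

theorem linInd_rat {κ ι : Type*} (p : ℕ) [hp : Fact p.Prime] (v : κ → ι → ℤ)
    (h : LinearIndependent (ZMod p) (fun k => (fun i => (v k i : ZMod p)))) :
    LinearIndependent ℚ (fun k => (fun i => (v k i : ℚ))) := by
  have h1 := linInd_int p v h
  let f : (ι → ℤ) →ₗ[ℤ] (ι → ℚ) :=
    { toFun := fun w i => (w i : ℚ)
      map_add' := by intro a b; funext i; simp
      map_smul' := by intro a b; funext i; simp }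
  have hf : LinearMap.ker f = ⊥ := by
    rw [LinearMap.ker_eq_bot]
    intro a b hab
    funext i
    have h3 : ((a i : ℤ) : ℚ) = ((b i : ℤ) : ℚ) := congrFun hab i
    exact_mod_cast h3
  have h2 : LinearIndependent ℤ (f ∘ v) := h1.map' f hf
  exact (LinearIndependent.iff_fractionRing ℤ ℚ).1 h2

/-- Every vector of the span modulo `p` of a lattice is the reduction of a lattice vector. -/
theorem mem_modSpan {ι : Type*} (p : ℕ) [hp : Fact p.Prime] (L : Submodule ℤ (ι → ℤ))
    (u : ι → ZMod p)
    (hu : u ∈ Submodule.span (ZMod p)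
      {u : ι → ZMod p | ∃ v ∈ L, u = fun h => (v h : ZMod p)}) :
    ∃ v ∈ L, u = fun h => (v h : ZMod p) := by
  induction hu using Submodule.span_induction with
  | mem x hx => exact hx
  | zero => exact ⟨0, L.zero_mem, by funext h; simp⟩
  | add x y _ _ hx hy =>
    obtain ⟨a, ha, rfl⟩ := hx
    obtain ⟨b, hb, rfl⟩ := hy
    exact ⟨a + b, L.add_mem ha hb, by funext h; simp⟩
  | smul c x _ hx =>
    obtain ⟨a, ha, rfl⟩ := hx
    refine ⟨(c.val : ℤ) • a, L.smul_mem _ ha, ?_⟩
    funext h
    simp

/-- A vector of the rational span of `L` which is integral but not in `L + p ℤ^ι` forces a drop of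
the rank modulo `p`. -/
theorem rank_lt {ι : Type*} [Finite ι] (p : ℕ) [hp : Fact p.Prime] (L : Submodule ℤ (ι → ℤ))
    (w : ι → ℤ) (m : ℤ) (hm : m ≠ 0) (hmw : m • w ∈ L)
    (hw : ¬ ∃ l ∈ L, ∃ u : ι → ℤ, w = l + (p : ℤ) • u) :
    Module.finrank (ZMod p) (Submodule.span (ZMod p)
      {u : ι → ZMod p | ∃ v ∈ L, u = fun h => (v h : ZMod p)}) <
    Module.finrank ℚ (Submodule.span ℚ {u : ι → ℚ | ∃ v ∈ L, u = fun h => (v h : ℚ)}) := by
  classical
  obtain ⟨b, hbS, hbspan, hbind⟩ := exists_linearIndependent (ZMod p)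
    {u : ι → ZMod p | ∃ v ∈ L, u = fun h => (v h : ZMod p)}
  have hfin : Finite b := hbind.finite
  have : Fintype b := Fintype.ofFinite b
  choose v hvL hv using fun u : b => hbS u.2
  let W : Option b → ι → ℤ := fun o => o.casesOn' w v
  have hWind : LinearIndependent (ZMod p) (fun o => (fun i => (W o i : ZMod p))) := by
    have h0 : (fun o => (fun i => (W o i : ZMod p))) =
        (fun o : Option b => o.casesOn' (fun i => (w i : ZMod p)) (fun u : b => (u : ι → ZMod p))) := by
      funext o
      cases o with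
      | none => rfl
      | some u => exact (hv u).symm
    rw [h0, linearIndependent_option']
    refine ⟨hbind, ?_⟩
    intro hmem
    rw [Subtype.range_coe_subtype, Set.ofPred_mem_eq, hbspan] at hmem
    obtain ⟨l, hl, hlw⟩ := mem_modSpan p L _ hmem
    apply hw
    refine ⟨l, hl, fun i => (w i - l i) / p, ?_⟩
    funext i
    have h1 : ((w i - l i : ℤ) : ZMod p) = 0 := by
      have := congrFun hlw i
      push_cast
      rw [this, sub_self]
    have h2 := (ZMod.intCast_zmod_eq_zero_iff_dvd _ p).1 h1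
    have h3 := Int.mul_ediv_cancel' h2
    simp only [Pi.add_apply, Pi.smul_apply, smul_eq_mul]
    rw [h3]; ring
  have hQ := linInd_rat p W hWind
  set R := Submodule.span ℚ {u : ι → ℚ | ∃ v ∈ L, u = fun h => (v h : ℚ)} with hR
  have hmem : ∀ o, (fun i => (W o i : ℚ)) ∈ R := by
    intro o
    cases o with
    | some u => exact Submodule.subset_span ⟨v u, hvL u, rfl⟩
    | none =>
      have h1 : (fun i => ((m • w) i : ℚ)) ∈ R := Submodule.subset_span ⟨_, hmw, rfl⟩
      have h2 := R.smul_mem ((m : ℚ)⁻¹) h1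
      have h3 : ((m : ℚ)⁻¹ • fun i => ((m • w) i : ℚ)) = (fun i => (W none i : ℚ)) := by
        funext i
        have hm' : (m : ℚ) ≠ 0 := by exact_mod_cast hm
        simp only [Pi.smul_apply, smul_eq_mul, Int.cast_mul]
        rw [← mul_assoc, inv_mul_cancel₀ hm', one_mul]
        rfl
      rwa [h3] at h2
  have hQ' : LinearIndependent ℚ (fun o => (⟨fun i => (W o i : ℚ), hmem o⟩ : R)) := by
    apply LinearIndependent.of_comp R.subtype
    exact hQ
  have hcard := hQ'.fintype_card_le_finrank
  rw [Fintype.card_option] at hcard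
  have h5 : Module.finrank (ZMod p) (Submodule.span (ZMod p)
      {u : ι → ZMod p | ∃ v ∈ L, u = fun h => (v h : ZMod p)}) = Fintype.card b := by
    rw [← hbspan]
    have := finrank_span_set_eq_card (R := ZMod p) hbind
    rw [this, Set.toFinset_card]
  omega

end Pool.Agent.Lib.MP_5fbfc2_al
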