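import Mathlib
import Pool.Agent.Lib.MP_5fbfc2_al.Basic

set_option autoImplicit false

namespace Pool.Agent.Lib.MP_5fbfc2_al

variable {G : Type*} [Group G]

theorem commRow_symm (g h : G) : commRow g h = commRow h g := by
  unfold commRow
  by_cases hc : g * h = h * g
  · rw [if_pos hc, if_pos hc.symm]
  · rw [if_neg hc, if_neg (fun h' => hc h'.symm)]

theorem commRow_one (g : G) : commRow g 1 = 1 := by
  unfold commRow; simp

theorem commRow_one' (g : G) : commRow (1 : G) g = 1 := by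
  unfold commRow; simp

/-- If `p` is not in the conductor, integral vectors of the rational span of `M(G)` are in `M(G)`
up to every power of `p`. -/
theorem approx [Finite G] {p : ℕ} (hp : p.Prime) (hn : p ∉ Ccomm G) (w : G → ℤ) (m : ℤ)
    (hm : m ≠ 0) (hmw : m • w ∈ diffLattice G) (j : ℕ) :
    ∃ l ∈ diffLattice G, ∃ u : G → ℤ, w = l + ((p : ℤ) ^ j) • u := by
  have hpF : Fact p.Prime := ⟨hp⟩
  induction j with
  | zero => exact ⟨0, Submodule.zero_mem _, w, by simp⟩
  | succ j ih =>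
    obtain ⟨l, hl, u, hu⟩ := ih
    have hp0 : (p : ℤ) ≠ 0 := by exact_mod_cast hp.ne_zero
    have h1 : (m * (p : ℤ) ^ j) • u ∈ diffLattice G := by
      have h2 : (m * (p : ℤ) ^ j) • u = m • w - m • l := by
        rw [hu, smul_add, add_sub_cancel_left, mul_smul]
      rw [h2]
      exact Submodule.sub_mem _ hmw (Submodule.smul_mem _ _ hl)
    by_cases hex : ∃ l' ∈ diffLattice G, ∃ u' : G → ℤ, u = l' + (p : ℤ) • u'
    · obtain ⟨l', hl', u', hu'⟩ := hex
      refine ⟨l + ((p : ℤ) ^ j) • l', Submodule.add_mem _ hl (Submodule.smul_mem _ _ hl'), u', ?_⟩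
      rw [hu, hu', smul_add, ← mul_smul, pow_succ, add_assoc]
    · exact absurd ⟨hp, rank_lt p (diffLattice G) u (m * (p : ℤ) ^ j)
        (mul_ne_zero hm (pow_ne_zero _ hp0)) h1 hex⟩ hn

/-- The pairing criterion. -/
theorem mem_Ccomm_of_pairing [Fintype G] {p : ℕ} (hp : p.Prime) (j : ℕ)
    (y w y' w' : G → ℤ)
    (h1 : ∀ g, ∑ h, y h * commRow h g = (p : ℤ) ^ j * w g)
    (h2 : ∀ g, ∑ h, y' h * commRow h g = (p : ℤ) ^ j * w' g)
    (h3 : ¬ ((p : ℤ) ^ j ∣ ∑ g, y' g * w g)) : p ∈ Ccomm G := by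
  classical
  by_contra hn
  have hp0 : (p : ℤ) ≠ 0 := by exact_mod_cast hp.ne_zero
  let w0 : G → ℤ := fun g => w g - w 1
  have hw0 : ((p : ℤ) ^ j) • w0 ∈ diffLattice G := by
    have h4 : ((p : ℤ) ^ j) • w0 = ∑ h, y h • (commRow h - commRow (1 : G)) := by
      funext g
      simp only [Pi.smul_apply, smul_eq_mul, Finset.sum_apply, Pi.sub_apply, w0]
      rw [mul_sub, ← h1 g, ← h1 1, ← Finset.sum_sub_distrib]
      refine Finset.sum_congr rfl fun h _ => ?_
      rw [commRow_one, commRow_one', mul_sub]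
    rw [h4]
    exact Submodule.sum_mem _ fun h _ =>
      Submodule.smul_mem _ _ (Submodule.subset_span ⟨h, 1, rfl⟩)
  obtain ⟨l, hl, u, hu⟩ := approx hp hn w0 _ (pow_ne_zero j hp0) hw0 j
  have hdl : ∀ l ∈ diffLattice G, (p : ℤ) ^ j ∣ ∑ g, y' g * l g := by
    intro l hl
    induction hl using Submodule.span_induction with
    | mem x hx =>
      obtain ⟨a, b, rfl⟩ := hx
      refine ⟨w' a - w' b, ?_⟩
      rw [mul_sub, ← h2 a, ← h2 b, ← Finset.sum_sub_distrib]
      refine Finset.sum_congr rfl fun g _ => ?_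
      rw [Pi.sub_apply, mul_sub, commRow_symm a g, commRow_symm b g]
    | zero => simp
    | add x z _ _ hx hz =>
      have : ∑ g, y' g * (x + z) g = ∑ g, y' g * x g + ∑ g, y' g * z g := by
        rw [← Finset.sum_add_distrib]
        exact Finset.sum_congr rfl fun g _ => by rw [Pi.add_apply, mul_add]
      rw [this]; exact dvd_add hx hz
    | smul c x _ hx =>
      have : ∑ g, y' g * (c • x) g = c * ∑ g, y' g * x g := by
        rw [Finset.mul_sum]
        exact Finset.sum_congr rfl fun g _ => by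
          rw [Pi.smul_apply, smul_eq_mul]; ring
      rw [this]; exact Dvd.dvd.mul_left hx c
  apply h3
  have h5 : ∑ g, y' g * w g = ∑ g, y' g * l g + (p : ℤ) ^ j * ∑ g, y' g * u g
      + w 1 * ((p : ℤ) ^ j * w' 1) := by
    have h6 : ((p : ℤ) ^ j * w' 1) = ∑ g, y' g := by
      rw [← h2 1]
      exact Finset.sum_congr rfl fun g _ => by rw [commRow_one, mul_one]
    rw [h6, Finset.mul_sum, Finset.mul_sum, ← Finset.sum_add_distrib, ← Finset.sum_add_distrib]
    refine Finset.sum_congr rfl fun g _ => ?_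
    have h7 : w g - w 1 = l g + (p : ℤ) ^ j * u g := by
      have := congrFun hu g
      simpa [w0] using this
    have h8 : w g = l g + (p : ℤ) ^ j * u g + w 1 := by linarith
    rw [h8]; ring
  rw [h5]
  refine dvd_add (dvd_add (hdl l hl) (Dvd.intro _ rfl)) ?_
  exact ⟨w 1 * w' 1, by ring⟩

end Pool.Agent.Lib.MP_5fbfc2_al
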