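import Mathlib
import Pool.Agent.Lib.MP_5fbfc2_al.Criterion

set_option autoImplicit false

namespace Pool.Agent.Lib.MP_5fbfc2_al

variable {G : Type*} [Group G]

/-- The criterion for a formal combination of elements. -/
theorem mem_Ccomm_of_family [Finite G] {ι : Type*} [Fintype ι] {p : ℕ} (hp : p.Prime)
    (a : ι → G) (c : ι → ℤ)
    (h1 : ∀ s : G, (p : ℤ) ∣ ∑ i, c i * commRow (a i) s)
    (h2 : ¬ ((p : ℤ) ^ 2 ∣ ∑ i, ∑ j, c i * c j * commRow (a i) (a j))) : p ∈ Ccomm G := by
  classical
  have : Fintype G := Fintype.ofFinite G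
  have hp0 : (p : ℤ) ≠ 0 := by exact_mod_cast hp.ne_zero
  let y : G → ℤ := fun x => ∑ i, if x = a i then c i else 0
  let w : G → ℤ := fun s => (∑ i, c i * commRow (a i) s) / p
  have hsum : ∀ f : G → ℤ, ∑ x, y x * f x = ∑ i, c i * f (a i) := by
    intro f
    have h3 : ∀ x, y x * f x = ∑ i, if x = a i then c i * f x else 0 := by
      intro x
      simp only [y, Finset.sum_mul, ite_mul, zero_mul]
    rw [Finset.sum_congr rfl fun x _ => h3 x, Finset.sum_comm]
    refine Finset.sum_congr rfl fun i _ => ?_
    rw [Finset.sum_ite_eq' Finset.univ (a i)]; simp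
  have hw : ∀ s, (p : ℤ) * w s = ∑ i, c i * commRow (a i) s := by
    intro s
    exact Int.mul_ediv_cancel' (h1 s)
  refine mem_Ccomm_of_pairing hp 1 y w y w ?_ ?_ ?_
  · intro s; rw [pow_one, hw s]; exact hsum fun h => commRow h s
  · intro s; rw [pow_one, hw s]; exact hsum fun h => commRow h s
  · rw [pow_one, hsum w]
    rintro ⟨t, ht⟩
    apply h2
    refine ⟨t, ?_⟩
    have h4 : ∑ i, ∑ j, c i * c j * commRow (a i) (a j) = (p : ℤ) * ∑ i, c i * w (a i) := by
      rw [Finset.mul_sum]
      refine Finset.sum_congr rfl fun i _ => ?_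
      have h5 : (p : ℤ) * (c i * w (a i)) = c i * ((p : ℤ) * w (a i)) := by ring
      rw [h5, hw (a i), Finset.mul_sum]
      refine Finset.sum_congr rfl fun j _ => ?_
      rw [commRow_symm (a i) (a j)]; ring
    rw [h4, ht]; ring

theorem commRow_equiv {H : Type*} [Group H] (e : G ≃* H) (a s : G) :
    commRow (e a) (e s) = commRow a s := by
  unfold commRow
  have h : (e a * e s = e s * e a) ↔ a * s = s * a := by
    rw [← map_mul, ← map_mul]
    exact e.injective.eq_iff
  by_cases hc : a * s = s * a
  · rw [if_pos hc, if_pos (h.2 hc)]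
  · rw [if_neg hc, if_neg (fun h' => hc (h.1 h'))]

theorem mem_Ccomm_of_family_equiv [Finite G] {H : Type*} [Group H] (e : G ≃* H)
    {ι : Type*} [Fintype ι] {p : ℕ} (hp : p.Prime)
    (a : ι → G) (c : ι → ℤ)
    (h1 : ∀ s : G, (p : ℤ) ∣ ∑ i, c i * commRow (a i) s)
    (h2 : ¬ ((p : ℤ) ^ 2 ∣ ∑ i, ∑ j, c i * c j * commRow (a i) (a j))) : p ∈ Ccomm H := by
  have : Finite H := Finite.of_equiv G e.toEquiv
  refine mem_Ccomm_of_family hp (fun i => e (a i)) c ?_ ?_
  · intro s
    obtain ⟨t, rfl⟩ := e.surjective s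
    simpa only [commRow_equiv] using h1 t
  · simpa only [commRow_equiv] using h2

/-- The criterion for a character with values `± 1`. -/
theorem mem_Ccomm_of_character [Finite G] (χ : G →* ℤˣ) {p : ℕ} (hp : p.Prime) (E : ℕ)
    (h1 : ∀ g : G, (∀ h ∈ Subgroup.centralizer ({g} : Set G), χ h = 1) →
      p ^ E ∣ Nat.card (Subgroup.centralizer ({g} : Set G)))
    (h2 : ¬ (p ^ (2 * E) ∣ Nat.card {x : G × G // x.1 * x.2 = x.2 * x.1 ∧
      ∀ h ∈ Subgroup.centralizer ({x.1} : Set G), χ h = 1})) : p ∈ Ccomm G := by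
  classical
  have : Fintype G := Fintype.ofFinite G
  have hp0 : (p : ℤ) ≠ 0 := by exact_mod_cast hp.ne_zero
  let T : G → Prop := fun g => ∀ h ∈ Subgroup.centralizer ({g} : Set G), χ h = 1
  let y : G → ℤ := fun x => ((χ x : ℤˣ) : ℤ)
  let N : G → ℤ := fun g => Nat.card (Subgroup.centralizer ({g} : Set G))
  let w : G → ℤ := fun g => if T g then N g / (p : ℤ) ^ E else 0
  have hN : ∀ g, T g → (p : ℤ) ^ E * (N g / (p : ℤ) ^ E) = N g := by
    intro g hg
    apply Int.mul_ediv_cancel'
    have := h1 g hg
    simp only [N]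
    exact_mod_cast this
  have hcount : ∀ g, ∑ h, commRow g h = N g := by
    intro g
    simp only [N, commRow]
    rw [Nat.card_eq_fintype_card, Fintype.card_subtype, Finset.card_filter]
    push_cast
    refine Finset.sum_congr rfl fun h _ => ?_
    have : (h ∈ Subgroup.centralizer ({g} : Set G)) ↔ g * h = h * g :=
      Subgroup.mem_centralizer_singleton_iff.trans eq_comm
    by_cases hc : g * h = h * g
    · rw [if_pos hc, if_pos (this.2 hc)]
    · rw [if_neg hc, if_neg (fun h' => hc (this.1 h'))]
  have hPy : ∀ g, ∑ h, y h * commRow h g = (p : ℤ) ^ E * w g := by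
    intro g
    by_cases hT : T g
    · simp only [w, if_pos hT]
      rw [hN g hT, ← hcount g]
      refine Finset.sum_congr rfl fun h _ => ?_
      rw [commRow_symm h g]
      unfold commRow
      by_cases hc : g * h = h * g
      · rw [if_pos hc]
        have hm : h ∈ Subgroup.centralizer ({g} : Set G) :=
          Subgroup.mem_centralizer_singleton_iff.2 hc.symm
        simp only [y, hT h hm]
        simp
      · rw [if_neg hc]; simp
    · simp only [w, if_neg hT, mul_zero]
      simp only [T] at hT
      push Not at hT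
      obtain ⟨t, ht, hχ⟩ := hT
      have ht' : t * g = g * t := Subgroup.mem_centralizer_singleton_iff.1 ht
      have hχ' : χ t = -1 := (Int.units_eq_one_or (χ t)).resolve_left hχ
      have h5 : ∑ h, y h * commRow h g = ∑ h, y (t * h) * commRow (t * h) g :=
        (Fintype.sum_equiv (Equiv.mulLeft t) (fun h => y (t * h) * commRow (t * h) g)
          (fun h => y h * commRow h g) (fun h => rfl)).symm
      have h6 : ∀ h, y (t * h) * commRow (t * h) g = - (y h * commRow h g) := by
        intro h
        have h7 : commRow (t * h) g = commRow h g := by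
          unfold commRow
          have : (t * h * g = g * (t * h)) ↔ h * g = g * h := by
            rw [mul_assoc, ← mul_assoc g t h, ← ht', mul_assoc t g h]
            exact mul_right_inj t
          by_cases hc : h * g = g * h
          · rw [if_pos hc, if_pos (this.2 hc)]
          · rw [if_neg hc, if_neg (fun h' => hc (this.1 h'))]
        rw [h7]
        simp only [y, map_mul, hχ']
        push_cast
        ring
      rw [Finset.sum_congr rfl fun h _ => h6 h, Finset.sum_neg_distrib] at h5
      linarith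
  refine mem_Ccomm_of_pairing hp E y w y w hPy hPy ?_
  rintro ⟨t, ht⟩
  apply h2
  have h8 : ((Nat.card {x : G × G // x.1 * x.2 = x.2 * x.1 ∧ T x.1} : ℕ) : ℤ) =
      (p : ℤ) ^ E * ∑ g, y g * w g := by
    rw [Nat.card_eq_fintype_card, Fintype.card_subtype, Finset.card_filter]
    push_cast
    rw [Fintype.sum_prod_type, Finset.mul_sum]
    refine Finset.sum_congr rfl fun g _ => ?_
    by_cases hT : T g
    · have hyg : y g = 1 := by
        simp only [y]
        rw [hT g (Subgroup.mem_centralizer_singleton_iff.2 rfl)]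
        simp
      simp only [hyg, w, if_pos hT, one_mul]
      rw [hN g hT, ← hcount g]
      refine Finset.sum_congr rfl fun h _ => ?_
      simp only [hT, and_true, commRow]
    · simp only [w, if_neg hT, mul_zero]
      apply Finset.sum_eq_zero
      intro h _
      simp only [hT, and_false, if_false]
  have h9 : ((p : ℤ) ^ (2 * E)) ∣
      ((Nat.card {x : G × G // x.1 * x.2 = x.2 * x.1 ∧ T x.1} : ℕ) : ℤ) := by
    rw [h8, ht]
    exact ⟨t, by ring⟩
  exact_mod_cast h9

end Pool.Agent.Lib.MP_5fbfc2_al
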