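import Pool.Agent.Lib.MP_5fbfc2_al.IndMain

/-!
# Counting cosets of the centre (MP_5fbfc2_al)
-/

namespace Pool.Agent.MP_5fbfc2_al

open Module

variable {G : Type*} [Group G]

theorem center_le_cent (c : elemCentralizers G) : Subgroup.center G ≤ (c : Subgroup G) := by
  rw [← rep_spec c]
  exact Subgroup.center_le_centralizer _

theorem relIndex_mul_card_center [Finite G] {c : Subgroup G} (h : Subgroup.center G ≤ c) :
    (Subgroup.center G).relIndex c * Nat.card (Subgroup.center G) = Nat.card c := by
  have h1 := Subgroup.index_mul_card ((Subgroup.center G).subgroupOf c)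
  rw [Nat.card_congr (Subgroup.subgroupOfEquivOfLe h).toEquiv] at h1
  exact h1

theorem relIndex_smul [Finite G] (x : G) (c : elemCentralizers G) :
    (Subgroup.center G).relIndex ((x • c : elemCentralizers G) : Subgroup G) =
      (Subgroup.center G).relIndex (c : Subgroup G) := by
  have h1 := relIndex_mul_card_center (center_le_cent (x • c))
  have h2 := relIndex_mul_card_center (center_le_cent c)
  have h3 : Nat.card ((x • c : elemCentralizers G) : Subgroup G) = Nat.card (c : Subgroup G) := by
    rw [coe_smul]
    exact (Nat.card_congr (Subgroup.equivMapOfInjective (c : Subgroup G)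
      (MulAut.conj x).toMonoidHom (MulAut.conj x).injective).toEquiv).symm
  have hpos : 0 < Nat.card (Subgroup.center G) := Nat.card_pos
  rw [h3, ← h2] at h1
  exact Nat.eq_of_mul_eq_mul_right hpos h1

theorem mem_iff_out {c : Subgroup G} (h : Subgroup.center G ≤ c) (x : G) :
    x ∈ c ↔ (QuotientGroup.mk x : G ⧸ Subgroup.center G).out ∈ c := by
  obtain ⟨z, hz⟩ := QuotientGroup.mk_out_eq_mul (Subgroup.center G) x
  rw [hz]
  constructor
  · intro hx; exact c.mul_mem hx (h z.2)
  · intro hx
    have := c.mul_mem hx (c.inv_mem (h z.2))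
    simpa using this

theorem card_out_mem [Finite G] {c : Subgroup G} (h : Subgroup.center G ≤ c) :
    Nat.card {q : G ⧸ Subgroup.center G // q.out ∈ c} = (Subgroup.center G).relIndex c := by
  have hpos : 0 < Nat.card (Subgroup.center G) := Nat.card_pos
  apply Nat.eq_of_mul_eq_mul_right hpos
  rw [relIndex_mul_card_center h, ← Nat.card_prod]
  apply Nat.card_congr
  let e : G ≃ (G ⧸ Subgroup.center G) × Subgroup.center G := Subgroup.groupEquivQuotientProdSubgroup
  have he : ∀ x : G, (e x).1 = QuotientGroup.mk x := by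
    intro x; rfl
  calc ({q : G ⧸ Subgroup.center G // q.out ∈ c} × Subgroup.center G)
      ≃ {y : (G ⧸ Subgroup.center G) × Subgroup.center G // y.1.out ∈ c} :=
        { toFun := fun y => ⟨(y.1.1, y.2), y.1.2⟩
          invFun := fun y => (⟨y.1.1, y.2⟩, y.1.2)
          left_inv := fun y => rfl
          right_inv := fun y => rfl }
    _ ≃ {x : G // x ∈ c} := (Equiv.subtypeEquiv e (fun x => by rw [he]; exact mem_iff_out h x)).symm
    _ ≃ c := Equiv.refl _

theorem sum_coeff (K : Type*) [Field K] [Finite G] [Fintype (elemCentralizers G)]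
    (a : elemCentralizers G → K)
    (ha : ∀ x : G, ∑ c, a c * ind K (c : Subgroup G) x = ind K (Subgroup.center G) x) :
    ∑ c, a c * (((Subgroup.center G).relIndex (c : Subgroup G) : ℕ) : K) = 1 := by
  classical
  have : Fintype (G ⧸ Subgroup.center G) := Fintype.ofFinite _
  have h1 : ∑ q : G ⧸ Subgroup.center G, ∑ c, a c * ind K (c : Subgroup G) q.out =
      ∑ q : G ⧸ Subgroup.center G, ind K (Subgroup.center G) q.out :=
    Finset.sum_congr rfl fun q _ => ha q.out
  have h2 : ∀ c : Subgroup G, Subgroup.center G ≤ c →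
      ∑ q : G ⧸ Subgroup.center G, ind K c q.out =
        (((Subgroup.center G).relIndex c : ℕ) : K) := by
    intro c hc
    unfold ind
    rw [Finset.sum_boole, ← card_out_mem hc, Nat.card_eq_fintype_card, Fintype.card_subtype]
  rw [Finset.sum_comm, h2 _ le_rfl] at h1
  simp_rw [← Finset.mul_sum] at h1
  rw [Finset.sum_congr rfl (fun c _ => by rw [h2 _ (center_le_cent c)])] at h1
  rw [h1, Subgroup.relIndex_self]
  simp

end Pool.Agent.MP_5fbfc2_al
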