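import Pool.Agent.Lib.MP_5fbfc2_al.IndCount

/-!
# The criteria (MP_5fbfc2_al)
-/

namespace Pool.Agent.MP_5fbfc2_al

open Module

variable {G : Type*} [Group G]

theorem pow_relIndex_mem {c : Subgroup G} {x : G} (hx : x ∈ c) :
    x ^ ((Subgroup.center G).relIndex c) ∈ Subgroup.center G := by
  have h := Subgroup.pow_index_mem ((Subgroup.center G).subgroupOf c) ⟨x, hx⟩
  rw [Subgroup.mem_subgroupOf] at h
  exact h

theorem mem_center_of_pow {c : Subgroup G} {x : G} (hx : x ∈ c) {p n : ℕ} (hp : p.Prime)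
    (hpn : x ^ p ^ n = 1) (hk : ¬ p ∣ (Subgroup.center G).relIndex c) :
    x ∈ Subgroup.center G := by
  have hco : Nat.Coprime ((Subgroup.center G).relIndex c) (p ^ n) :=
    Nat.Coprime.pow_right n ((Nat.Prime.coprime_iff_not_dvd hp).2 hk).symm
  have h1 := pow_relIndex_mem hx
  have h2 := Nat.gcd_eq_gcd_ab ((Subgroup.center G).relIndex c) (p ^ n)
  rw [hco.gcd_eq_one] at h2
  have h3 : x = (x ^ ((Subgroup.center G).relIndex c)) ^
      (Nat.gcdA ((Subgroup.center G).relIndex c) (p ^ n)) := by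
    have h4 : x ^ ((1 : ℕ) : ℤ) = x := by simp
    rw [h2, zpow_add, zpow_mul, zpow_mul, zpow_natCast, zpow_natCast, hpn, one_zpow, mul_one] at h4
    exact h4.symm
  rw [h3]
  exact Subgroup.zpow_mem _ h1 _

/-- a `p`-subgroup of `C(g)` is central if `p` does not divide `|C(g) : Z(G)|` -/
theorem le_center_of_le {c Q : Subgroup G} {p : ℕ} (hp : p.Prime) (hQ : IsPGroup p Q)
    (hle : Q ≤ c) (hk : ¬ p ∣ (Subgroup.center G).relIndex c) : Q ≤ Subgroup.center G := by
  intro x hx
  obtain ⟨n, hn⟩ := hQ ⟨x, hx⟩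
  have hn' : x ^ p ^ n = 1 := by
    have := congrArg Subtype.val hn
    simpa using this
  exact mem_center_of_pow (hle hx) hp hn' hk

theorem normal_case {Q : Subgroup G} [hN : Q.Normal] {p : ℕ} (hp : p.Prime) (hQ : IsPGroup p Q)
    {g : G} (hfix : ∀ x ∈ Q, (Subgroup.centralizer ({g} : Set G)).map (MulAut.conj x).toMonoidHom =
      Subgroup.centralizer ({g} : Set G))
    (hk : ¬ p ∣ (Subgroup.center G).relIndex (Subgroup.centralizer ({g} : Set G))) :
    Q ≤ Subgroup.center G := by
  refine le_center_of_le hp hQ ?_ hk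
  intro x hx
  set k := (Subgroup.center G).relIndex (Subgroup.centralizer ({g} : Set G)) with hkdef
  have hgg : g ∈ Subgroup.centralizer ({g} : Set G) := mem_cent_singleton.2 rfl
  have h1 : x * g * x⁻¹ ∈ Subgroup.centralizer ({g} : Set G) := by
    rw [← hfix x hx]
    exact ⟨g, hgg, rfl⟩
  have hy1 : g⁻¹ * (x * g * x⁻¹) ∈ Subgroup.centralizer ({g} : Set G) :=
    Subgroup.mul_mem _ (Subgroup.inv_mem _ hgg) h1
  have hy2 : g⁻¹ * (x * g * x⁻¹) ∈ Q := by
    have : g⁻¹ * x * g⁻¹⁻¹ ∈ Q := hN.conj_mem x hx g⁻¹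
    have h3 : g⁻¹ * (x * g * x⁻¹) = (g⁻¹ * x * g⁻¹⁻¹) * x⁻¹ := by group
    rw [h3]
    exact Q.mul_mem this (Q.inv_mem hx)
  obtain ⟨y, hy⟩ : ∃ y, y = g⁻¹ * (x * g * x⁻¹) := ⟨_, rfl⟩
  rw [← hy] at hy1 hy2
  obtain ⟨n, hn⟩ := hQ ⟨y, hy2⟩
  have hn' : y ^ p ^ n = 1 := by
    have := congrArg Subtype.val hn
    simpa using this
  have hyZ : y ∈ Subgroup.center G := mem_center_of_pow hy1 hp hn' hk
  have hxg : x * g * x⁻¹ = g * y := by rw [hy]; group
  have hgk : g ^ k ∈ Subgroup.center G := pow_relIndex_mem hgg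
  have h4 : x * g ^ k * x⁻¹ = g ^ k * y ^ k := by
    rw [← conj_pow, hxg]
    have hc : Commute g y := (Subgroup.mem_center_iff.1 hyZ g)
    exact hc.mul_pow k
  have h5 : x * g ^ k * x⁻¹ = g ^ k := by
    rw [Subgroup.mem_center_iff.1 hgk x]; group
  have h6 : y ^ k = 1 := by
    rw [h5] at h4
    exact (mul_eq_left.1 h4.symm)
  have hco : Nat.Coprime k (p ^ n) :=
    Nat.Coprime.pow_right n ((Nat.Prime.coprime_iff_not_dvd hp).2 hk).symm
  have h7 : orderOf y = 1 :=
    Nat.eq_one_of_dvd_coprimes hco (orderOf_dvd_of_pow_eq_one h6) (orderOf_dvd_of_pow_eq_one hn')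
  have h8 : y = 1 := orderOf_eq_one_iff.1 h7
  rw [h8, mul_one] at hxg
  rw [mem_cent_singleton]
  have := congrArg (· * x) hxg
  simpa using this.symm

theorem sum_eq_zero_of_fixed' {Q α : Type*} [Group Q] [MulAction Q α] [Fintype α] {p : ℕ}
    [hp : Fact p.Prime] (hQ : IsPGroup p Q) (f : α → ZMod p) (hf : ∀ (x : Q) (c : α), f (x • c) = f c)
    (h0 : ∀ c : α, (∀ x : Q, x • c = c) → f c = 0) : ∑ c, f c = 0 := by
  classical
  rw [← Finset.sum_fiberwise_of_maps_to (g := f) (t := Finset.univ) (fun _ _ => Finset.mem_univ _)]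
  apply Finset.sum_eq_zero
  intro v _
  rw [Finset.sum_congr rfl (g := fun _ => v) (fun c hc => (Finset.mem_filter.1 hc).2),
    Finset.sum_const, nsmul_eq_mul]
  by_cases hv : v = 0
  · rw [hv, mul_zero]
  · let S : SubMulAction Q α :=
      { carrier := {c | f c = v}
        smul_mem' := fun x c hc => (hf x c).trans hc }
    have h1 := hQ.card_modEq_card_fixedPoints S
    have h2 : Nat.card (MulAction.fixedPoints Q S) = 0 := by
      rw [Nat.card_eq_zero]
      left
      constructor
      rintro ⟨⟨c, hc⟩, hcf⟩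
      apply hv
      rw [← (hc : f c = v)]
      apply h0
      intro x
      have := hcf x
      exact congrArg Subtype.val this
    rw [h2] at h1
    have h3 : Nat.card S = (Finset.univ.filter fun c => f c = v).card := by
      show Nat.card {c // f c = v} = _
      rw [Nat.card_eq_fintype_card, Fintype.card_subtype]
    rw [← h3]
    have h4 : p ∣ Nat.card S := (Nat.modEq_zero_iff_dvd).1 h1
    rw [(ZMod.natCast_eq_zero_iff _ _).2 h4, zero_mul]

/-- **Criterion.**  A prime `p` lies in the conductor if the centraliser functions are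
independent and some `p`-subgroup `Q` has the property that `p ∣ |C(g) : Z(G)|` for every `g`
whose centraliser is normalised by `Q`. -/
theorem mem_Ccomm_of_fixed [Finite G] {p : ℕ} (hp : p.Prime) (hind : IndependentCentralizers G)
    (Q : Subgroup G) (hQ : IsPGroup p Q)
    (hfix : ∀ g : G, (∀ x ∈ Q, (Subgroup.centralizer ({g} : Set G)).map (MulAut.conj x).toMonoidHom =
      Subgroup.centralizer ({g} : Set G)) →
      p ∣ (Subgroup.center G).relIndex (Subgroup.centralizer ({g} : Set G))) :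
    p ∈ Ccomm G := by
  classical
  by_contra hC
  have : Fact p.Prime := ⟨hp⟩
  have : Fintype (elemCentralizers G) := Fintype.ofFinite _
  have hI := indep_mod hp hind hC
  obtain ⟨a, ha⟩ := exists_coeff (ZMod p) hI
  have hinv := coeff_inv (ZMod p) hI a ha
  have hsum := sum_coeff (ZMod p) a ha
  have h0 : ∑ c : elemCentralizers G,
      a c * (((Subgroup.center G).relIndex (c : Subgroup G) : ℕ) : ZMod p) = 0 := by
    apply sum_eq_zero_of_fixed' hQ
    · intro x c
      show a ((x : G) • c) * _ = _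
      rw [hinv]
      congr 2
      exact relIndex_smul (x : G) c
    · intro c hc
      have h1 : p ∣ (Subgroup.center G).relIndex (c : Subgroup G) := by
        rw [← rep_spec c]
        apply hfix
        intro x hx
        have h2 := congrArg Subtype.val (hc ⟨x, hx⟩)
        rw [rep_spec c]
        exact h2
      rw [(ZMod.natCast_eq_zero_iff _ _).2 h1, mul_zero]
  rw [h0] at hsum
  exact zero_ne_one hsum

/-- the criterion with noncentral elements only -/
theorem mem_Ccomm_of_noncentral [Finite G] {p : ℕ} (hp : p.Prime) (hind : IndependentCentralizers G)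
    (Q : Subgroup G) (hQ : IsPGroup p Q) (hQZ : ¬ Q ≤ Subgroup.center G)
    (hfix : ∀ g : G, g ∉ Subgroup.center G →
      (∀ x ∈ Q, (Subgroup.centralizer ({g} : Set G)).map (MulAut.conj x).toMonoidHom =
        Subgroup.centralizer ({g} : Set G)) →
      p ∣ (Subgroup.center G).relIndex (Subgroup.centralizer ({g} : Set G))) :
    p ∈ Ccomm G := by
  apply mem_Ccomm_of_fixed hp hind Q hQ
  intro g hg
  by_cases hgZ : g ∈ Subgroup.center G
  · by_contra hk
    apply hQZ
    refine le_center_of_le hp hQ ?_ hk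
    have h1 : Subgroup.centralizer ({g} : Set G) = ⊤ := by
      have := congrArg Subtype.val ((C_eq_top_iff g).2 hgZ)
      simpa [C, cent_one] using this
    rw [h1]; exact le_top
  · exact hfix g hgZ hg

/-- noncentral normal `p`-subgroups -/
theorem mem_Ccomm_of_normal [Finite G] {p : ℕ} (hp : p.Prime) (hind : IndependentCentralizers G)
    (Q : Subgroup G) [Q.Normal] (hQ : IsPGroup p Q) (hQZ : ¬ Q ≤ Subgroup.center G) :
    p ∈ Ccomm G := by
  apply mem_Ccomm_of_fixed hp hind Q hQ
  intro g hg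
  by_contra hk
  exact hQZ (normal_case hp hQ hg hk)

end Pool.Agent.MP_5fbfc2_al
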