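import Mathlib

/-!
# The commuting conductor of a finite group: definitions (MP_5fbfc2_al)
-/

namespace Pool.Agent.MP_5fbfc2_al

open Classical in
/-- The row `P_g` of the commuting matrix of `G`: `P_{g,h} = 1` if `g h = h g` and `0` otherwise. -/
noncomputable def commRow {G : Type*} [Group G] (g : G) : G → ℤ :=
  fun h => if g * h = h * g then 1 else 0

/-- The commuting difference lattice `M(G)`: the `ℤ`-span of all differences of rows. -/
def diffLattice (G : Type*) [Group G] : Submodule ℤ (G → ℤ) :=
  Submodule.span ℤ {v | ∃ g g' : G, v = commRow g - commRow g'}

/-- The `K`-span, inside `K^G`, of the image of `M(G)` under the coordinatewise map `ℤ → K`.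
For `K = ZMod p` this is the image `M(G) mod p` itself. -/
def latticeImage (K : Type*) [Field K] (G : Type*) [Group G] : Submodule K (G → K) :=
  Submodule.span K {w | ∃ v ∈ diffLattice G, w = fun h => ((v h : ℤ) : K)}

/-- The rank over `K` of the commuting difference lattice. -/
noncomputable def latticeRank (K : Type*) [Field K] (G : Type*) [Group G] : ℕ :=
  Module.finrank K (latticeImage K G)

/-- The commuting conductor `Ccomm(G)`: the primes `p` with
`rank_{𝔽_p} (M(G) mod p) < rank_ℚ M(G)`. -/
def Ccomm (G : Type*) [Group G] : Set ℕ :=
  {p | ∃ hp : p.Prime, haveI : Fact p.Prime := ⟨hp⟩; latticeRank (ZMod p) G < latticeRank ℚ G}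

/-- The set of centralisers of single elements of `G` (the group `G = C(1)` included). -/
def elemCentralizers (G : Type*) [Group G] : Set (Subgroup G) :=
  Set.range fun g : G => Subgroup.centralizer ({g} : Set G)

open Classical in
/-- The indicator function of a subgroup, with values in `K`. -/
noncomputable def ind (K : Type*) [Field K] {G : Type*} [Group G] (c : Subgroup G) : G → K :=
  fun x => if x ∈ c then 1 else 0

/-- The indicator functions of the distinct element centralisers are linearly independent
over `ℚ`. -/
def IndependentCentralizers (G : Type*) [Group G] : Prop :=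
  LinearIndependent ℚ (fun c : elemCentralizers G => ind ℚ (c : Subgroup G))

end Pool.Agent.MP_5fbfc2_al
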