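import Pool.Agent.Lib.MP_5fbfc2_al.IndDefs

/-!
# Linear algebra for the commuting conductor (MP_5fbfc2_al)
-/

namespace Pool.Agent.MP_5fbfc2_al

open Module

variable {G : Type*} [Group G]

theorem mem_cent_singleton {g h : G} : h ∈ Subgroup.centralizer ({g} : Set G) ↔ g * h = h * g := by
  rw [Subgroup.mem_centralizer_singleton_iff]
  exact eq_comm

/-- the row `P_g` with values in `K` -/
theorem cast_commRow (K : Type*) [Field K] (g h : G) :
    ((commRow g h : ℤ) : K) = ind K (Subgroup.centralizer ({g} : Set G)) h := by
  classical
  unfold commRow ind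
  by_cases hh : g * h = h * g
  · rw [if_pos hh, if_pos (mem_cent_singleton.2 hh)]; simp
  · rw [if_neg hh, if_neg (fun h' => hh (mem_cent_singleton.1 h'))]; simp

/-- the span of the indicator functions of the centralisers -/
def rowSpan (K : Type*) [Field K] (G : Type*) [Group G] : Submodule K (G → K) :=
  Submodule.span K (Set.range fun c : elemCentralizers G => ind K (c : Subgroup G))

theorem ind_mem_rowSpan (K : Type*) [Field K] (g : G) :
    ind K (Subgroup.centralizer ({g} : Set G)) ∈ rowSpan K G :=
  Submodule.subset_span ⟨⟨_, g, rfl⟩, rfl⟩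

theorem latticeImage_eq (K : Type*) [Field K] :
    latticeImage K G = Submodule.span K {w | ∃ g g' : G,
      w = ind K (Subgroup.centralizer ({g} : Set G)) - ind K (Subgroup.centralizer ({g'} : Set G))} := by
  apply le_antisymm
  · unfold latticeImage
    rw [Submodule.span_le]
    rintro w ⟨v, hv, rfl⟩
    unfold diffLattice at hv
    induction hv using Submodule.span_induction with
    | mem v hv =>
      obtain ⟨g, g', rfl⟩ := hv
      apply Submodule.subset_span
      refine ⟨g, g', ?_⟩
      funext h
      simp only [Pi.sub_apply, Int.cast_sub, cast_commRow]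
    | zero =>
      have : (fun h : G => (((0 : G → ℤ) h : ℤ) : K)) = 0 := by funext h; simp
      rw [this]; exact Submodule.zero_mem _
    | add v w _ _ hv hw =>
      have : (fun h : G => (((v + w) h : ℤ) : K)) = (fun h => ((v h : ℤ) : K)) + fun h => ((w h : ℤ) : K) := by
        funext h; simp
      rw [this]; exact Submodule.add_mem _ hv hw
    | smul a v _ hv =>
      have : (fun h : G => (((a • v) h : ℤ) : K)) = (a : K) • (fun h => ((v h : ℤ) : K)) := by
        funext h; simp
      rw [this]; exact Submodule.smul_mem _ _ hv
  · rw [Submodule.span_le]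
    rintro w ⟨g, g', rfl⟩
    apply Submodule.subset_span
    refine ⟨commRow g - commRow g', Submodule.subset_span ⟨g, g', rfl⟩, ?_⟩
    funext h
    simp only [Pi.sub_apply, Int.cast_sub, cast_commRow]

theorem cent_one : Subgroup.centralizer ({1} : Set G) = ⊤ := by
  ext x; simp [mem_cent_singleton]

theorem ind_one (K : Type*) [Field K] {g : G} :
    ind K (Subgroup.centralizer ({g} : Set G)) 1 = 1 := by
  unfold ind; rw [if_pos (Subgroup.one_mem _)]

theorem rowSpan_eq_sup (K : Type*) [Field K] :
    rowSpan K G = latticeImage K G ⊔ Submodule.span K {ind K (⊤ : Subgroup G)} := by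
  rw [latticeImage_eq]
  apply le_antisymm
  · unfold rowSpan
    rw [Submodule.span_le]
    rintro _ ⟨⟨_, g, rfl⟩, rfl⟩
    have h1 : ind K (Subgroup.centralizer ({g} : Set G)) =
        (ind K (Subgroup.centralizer ({g} : Set G)) - ind K (Subgroup.centralizer ({1} : Set G)))
          + ind K (⊤ : Subgroup G) := by rw [cent_one]; simp
    show ind K (Subgroup.centralizer ({g} : Set G)) ∈ _
    rw [h1]
    exact Submodule.add_mem_sup (Submodule.subset_span ⟨g, 1, rfl⟩)
      (Submodule.mem_span_singleton_self _)
  · apply sup_le
    · rw [Submodule.span_le]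
      rintro _ ⟨g, g', rfl⟩
      exact Submodule.sub_mem _ (ind_mem_rowSpan K g) (ind_mem_rowSpan K g')
    · rw [Submodule.span_singleton_le_iff_mem, ← cent_one]
      exact ind_mem_rowSpan K 1

theorem finrank_rowSpan (K : Type*) [Field K] [Finite G] :
    finrank K (rowSpan K G) = latticeRank K G + 1 := by
  have hinf : latticeImage K G ⊓ Submodule.span K {ind K (⊤ : Subgroup G)} = ⊥ := by
    rw [Submodule.eq_bot_iff]
    rintro w ⟨hw1, hw2⟩
    obtain ⟨a, rfl⟩ := Submodule.mem_span_singleton.1 hw2
    have hz : ∀ v ∈ latticeImage K G, v 1 = 0 := by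
      intro v hv
      rw [latticeImage_eq] at hv
      induction hv using Submodule.span_induction with
      | mem v hv =>
        obtain ⟨g, g', rfl⟩ := hv
        simp [ind_one]
      | zero => rfl
      | add v w _ _ hv hw => simp [hv, hw]
      | smul a v _ hv => simp [hv]
    have := hz _ hw1
    rw [← cent_one, Pi.smul_apply, ind_one] at this
    have ha : a = 0 := by simpa using this
    rw [ha, zero_smul]
  have hne : ind K (⊤ : Subgroup G) ≠ 0 := by
    intro h
    have := congrFun h 1
    rw [← cent_one, ind_one] at this
    exact one_ne_zero this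
  have h := Submodule.finrank_sup_add_finrank_inf_eq (latticeImage K G)
    (Submodule.span K {ind K (⊤ : Subgroup G)})
  rw [hinf, finrank_bot, add_zero, ← rowSpan_eq_sup, finrank_span_singleton hne] at h
  exact h

/-- If the centraliser functions are independent over `ℚ` and `p` is not in the conductor then
they are independent over `ZMod p`. -/
theorem indep_mod [Finite G] {p : ℕ} (hp : p.Prime) (hind : IndependentCentralizers G)
    (hC : p ∉ Ccomm G) : haveI : Fact p.Prime := ⟨hp⟩
    LinearIndependent (ZMod p) (fun c : elemCentralizers G => ind (ZMod p) (c : Subgroup G)) := by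
  have : Fact p.Prime := ⟨hp⟩
  classical
  have : Fintype (elemCentralizers G) := Fintype.ofFinite _
  have h1 : latticeRank ℚ G ≤ latticeRank (ZMod p) G := by
    by_contra hcon
    exact hC ⟨hp, not_le.1 hcon⟩
  have h2 := finrank_span_eq_card hind
  rw [linearIndependent_iff_card_le_finrank_span]
  have h3 := finrank_rowSpan (G := G) ℚ
  have h4 := finrank_rowSpan (G := G) (ZMod p)
  unfold rowSpan at h3 h4
  unfold Set.finrank
  omega

end Pool.Agent.MP_5fbfc2_al
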