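import Pool.Agent.Lib.MP_5fbfc2_al.IndLin

/-!
# The criterion for `p ∈ Ccomm(G)` (MP_5fbfc2_al)
-/

namespace Pool.Agent.MP_5fbfc2_al

open Module

variable {G : Type*} [Group G]

/-- the centraliser of `x` as an element of `elemCentralizers G` -/
def C (x : G) : elemCentralizers G := ⟨Subgroup.centralizer ({x} : Set G), x, rfl⟩

/-- a representative -/
noncomputable def rep (c : elemCentralizers G) : G := c.2.choose

theorem rep_spec (c : elemCentralizers G) : Subgroup.centralizer ({rep c} : Set G) = c :=
  c.2.choose_spec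

theorem C_rep (c : elemCentralizers G) : C (rep c) = c := Subtype.ext (rep_spec c)

theorem C_eq_top_iff (x : G) : C x = C 1 ↔ x ∈ Subgroup.center G := by
  constructor
  · intro h
    have h1 : Subgroup.centralizer ({x} : Set G) = ⊤ := by
      have := congrArg Subtype.val h
      simpa [C, cent_one] using this
    rw [Subgroup.mem_center_iff]
    intro g
    have : g ∈ Subgroup.centralizer ({x} : Set G) := by rw [h1]; trivial
    exact (mem_cent_singleton.1 this).symm
  · intro h
    apply Subtype.ext
    show Subgroup.centralizer ({x} : Set G) = Subgroup.centralizer ({1} : Set G)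
    rw [cent_one, eq_top_iff]
    intro g _
    rw [mem_cent_singleton]
    exact (Subgroup.mem_center_iff.1 h g).symm

/-- `x ∈ C(rep c) ↔ rep (C x)`-membership -/
theorem mem_iff_rep (c : elemCentralizers G) (x : G) :
    x ∈ (c : Subgroup G) ↔ rep (C x) ∈ (c : Subgroup G) := by
  have h1 : ∀ y : G, y ∈ (c : Subgroup G) ↔ rep c ∈ Subgroup.centralizer ({y} : Set G) := by
    intro y
    conv_lhs => rw [← rep_spec c]
    rw [mem_cent_singleton, mem_cent_singleton]
    exact eq_comm
  rw [h1 x, h1 (rep (C x)), rep_spec (C x)]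
  rfl

/-- the square matrix of the centralisers -/
noncomputable def T (K : Type*) [Field K] (G : Type*) [Group G] :
    Matrix (elemCentralizers G) (elemCentralizers G) K :=
  fun c d => ind K (c : Subgroup G) (rep d)

theorem exists_coeff (K : Type*) [Field K] [Finite G]
    (hind : LinearIndependent K (fun c : elemCentralizers G => ind K (c : Subgroup G)))
    [Fintype (elemCentralizers G)] :
    ∃ a : elemCentralizers G → K, ∀ x : G,
      ∑ c, a c * ind K (c : Subgroup G) x = ind K (Subgroup.center G) x := by
  classical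
  have hrow : LinearIndependent K (fun c => T K G c) := by
    let φ : (elemCentralizers G → K) →ₗ[K] (G → K) := LinearMap.funLeft K K C
    apply LinearIndependent.of_comp φ
    convert hind using 1
    funext c
    funext x
    show T K G c (C x) = ind K (c : Subgroup G) x
    unfold T ind
    by_cases h : x ∈ (c : Subgroup G)
    · rw [if_pos h, if_pos ((mem_iff_rep c x).1 h)]
    · rw [if_neg h, if_neg (fun h' => h ((mem_iff_rep c x).2 h'))]
  have hu : IsUnit (T K G) := Matrix.linearIndependent_rows_iff_isUnit.1 hrow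
  have hdet : IsUnit (T K G).det := (Matrix.isUnit_iff_isUnit_det _).1 hu
  refine ⟨Matrix.vecMul (Pi.single (C 1) 1) (T K G)⁻¹, ?_⟩
  intro x
  have h1 : Matrix.vecMul (Matrix.vecMul (Pi.single (C 1) 1) (T K G)⁻¹) (T K G)
      = Pi.single (C 1) 1 := by
    rw [Matrix.vecMul_vecMul, Matrix.nonsing_inv_mul _ hdet, Matrix.vecMul_one]
  have h2 := congrFun h1 (C x)
  have h3 : ∀ c : elemCentralizers G, ind K (c : Subgroup G) x = T K G c (C x) := by
    intro c
    unfold T ind
    by_cases h : x ∈ (c : Subgroup G)
    · rw [if_pos h, if_pos ((mem_iff_rep c x).1 h)]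
    · rw [if_neg h, if_neg (fun h' => h ((mem_iff_rep c x).2 h'))]
  simp_rw [h3]
  have h4 : ∑ c, Matrix.vecMul (Pi.single (C 1) (1 : K)) (T K G)⁻¹ c * T K G c (C x)
      = Matrix.vecMul (Matrix.vecMul (Pi.single (C 1) 1) (T K G)⁻¹) (T K G) (C x) := rfl
  rw [h4, h2]
  unfold ind
  by_cases hx : x ∈ Subgroup.center G
  · rw [if_pos hx, (C_eq_top_iff x).2 hx, Pi.single_eq_same]
  · rw [if_neg hx, Pi.single_eq_of_ne (fun h => hx ((C_eq_top_iff x).1 h))]

/-! ### the conjugation action on centralisers -/

theorem map_conj_cent (x g : G) :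
    (Subgroup.centralizer ({g} : Set G)).map (MulAut.conj x).toMonoidHom =
      Subgroup.centralizer ({x * g * x⁻¹} : Set G) := by
  ext y
  rw [Subgroup.mem_map]
  constructor
  · rintro ⟨z, hz, rfl⟩
    rw [mem_cent_singleton] at hz ⊢
    show x * g * x⁻¹ * (x * z * x⁻¹) = (x * z * x⁻¹) * (x * g * x⁻¹)
    have : x * g * x⁻¹ * (x * z * x⁻¹) = x * (g * z) * x⁻¹ := by group
    rw [this, hz]; group
  · intro hy
    rw [mem_cent_singleton] at hy
    refine ⟨x⁻¹ * y * x, ?_, ?_⟩
    · rw [mem_cent_singleton]
      have h1 : g * (x⁻¹ * y * x) = x⁻¹ * ((x * g * x⁻¹) * y) * x := by group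
      rw [h1, hy]; group
    · show x * (x⁻¹ * y * x) * x⁻¹ = y
      group

/-- conjugation action of `G` on the set of element centralisers -/
instance conjAct : MulAction G (elemCentralizers G) where
  smul x c := ⟨(c : Subgroup G).map (MulAut.conj x).toMonoidHom,
    x * rep c * x⁻¹, by
      show Subgroup.centralizer ({x * rep c * x⁻¹} : Set G) = _
      rw [← map_conj_cent, rep_spec]⟩
  one_smul c := by
    apply Subtype.ext
    show (c : Subgroup G).map (MulAut.conj (1 : G)).toMonoidHom = c
    rw [map_one]
    exact Subgroup.map_id _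
  mul_smul x y c := by
    apply Subtype.ext
    show (c : Subgroup G).map (MulAut.conj (x * y)).toMonoidHom =
      ((c : Subgroup G).map (MulAut.conj y).toMonoidHom).map (MulAut.conj x).toMonoidHom
    rw [Subgroup.map_map, map_mul]
    rfl

theorem coe_smul (x : G) (c : elemCentralizers G) :
    ((x • c : elemCentralizers G) : Subgroup G) =
      (c : Subgroup G).map (MulAut.conj x).toMonoidHom := rfl

theorem mem_smul_iff (x y : G) (c : elemCentralizers G) :
    x * y * x⁻¹ ∈ ((x • c : elemCentralizers G) : Subgroup G) ↔ y ∈ (c : Subgroup G) := by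
  rw [coe_smul, Subgroup.mem_map]
  constructor
  · rintro ⟨z, hz, h⟩
    have : z = y := by
      have h' : x * z * x⁻¹ = x * y * x⁻¹ := h
      simpa using h'
    rwa [← this]
  · intro hy
    exact ⟨y, hy, rfl⟩

theorem coeff_inv (K : Type*) [Field K] [Finite G] [Fintype (elemCentralizers G)]
    (hind : LinearIndependent K (fun c : elemCentralizers G => ind K (c : Subgroup G)))
    (a : elemCentralizers G → K)
    (ha : ∀ x : G, ∑ c, a c * ind K (c : Subgroup G) x = ind K (Subgroup.center G) x)
    (x : G) (c : elemCentralizers G) : a (x • c) = a c := by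
  classical
  have h1 : ∑ d, (a (x • d) - a d) • ind K (d : Subgroup G) = 0 := by
    funext y
    simp only [Finset.sum_apply, Pi.smul_apply, smul_eq_mul, Pi.zero_apply, sub_mul,
      Finset.sum_sub_distrib]
    rw [ha y]
    have h2 : ∑ d, a (x • d) * ind K (d : Subgroup G) y =
        ∑ d, a (x • d) * ind K ((x • d : elemCentralizers G) : Subgroup G) (x * y * x⁻¹) := by
      apply Finset.sum_congr rfl
      intro d _
      congr 1
      unfold ind
      by_cases h : y ∈ (d : Subgroup G)
      · rw [if_pos h, if_pos ((mem_smul_iff x y d).2 h)]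
      · rw [if_neg h, if_neg (fun h' => h ((mem_smul_iff x y d).1 h'))]
    rw [h2]
    have h3 : ∑ d, a (x • d) * ind K ((x • d : elemCentralizers G) : Subgroup G) (x * y * x⁻¹) =
        ∑ d, a d * ind K (d : Subgroup G) (x * y * x⁻¹) :=
      Equiv.sum_comp (MulAction.toPerm x : Equiv.Perm (elemCentralizers G))
        (fun d => a d * ind K (d : Subgroup G) (x * y * x⁻¹))
    rw [h3, ha]
    have h4 : x * y * x⁻¹ ∈ Subgroup.center G ↔ y ∈ Subgroup.center G := by
      constructor
      · intro h
        have := (inferInstance : (Subgroup.center G).Normal).conj_mem _ h x⁻¹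
        simpa [mul_assoc] using this
      · intro h
        exact (inferInstance : (Subgroup.center G).Normal).conj_mem _ h x
    unfold ind
    by_cases h : y ∈ Subgroup.center G
    · rw [if_pos h, if_pos (h4.2 h), sub_self]
    · rw [if_neg h, if_neg (fun h' => h (h4.1 h')), sub_self]
  have h5 := Fintype.linearIndependent_iff.1 hind _ h1 c
  exact sub_eq_zero.1 h5

end Pool.Agent.MP_5fbfc2_al
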