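import Pool.Agent.Lib.MP_5fbfc2_al.IndCrit
import Pool.Agent.Lib.MP_5fbfc2_al.IC.Grp

/-!
# The criterion with `1_Z` in the rational row space (MP_5fbfc2_al)
-/

namespace Pool.Agent.MP_5fbfc2_al

open Module

variable {G : Type*} [Group G]

/-- The indicator function of the centre is a rational linear combination of the indicator
functions of the element centralisers. -/
def CenterInRowSpan (G : Type*) [Group G] : Prop :=
  ind ℚ (Subgroup.center G) ∈
    Submodule.span ℚ (Set.range fun g : G => ind ℚ (Subgroup.centralizer ({g} : Set G)))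

theorem range_ind (K : Type*) [Field K] :
    (Set.range fun c : elemCentralizers G => ind K (c : Subgroup G)) =
      Set.range fun g : G => ind K (Subgroup.centralizer ({g} : Set G)) := by
  ext f
  constructor
  · rintro ⟨⟨_, g, rfl⟩, rfl⟩
    exact ⟨g, rfl⟩
  · rintro ⟨g, rfl⟩
    exact ⟨⟨_, g, rfl⟩, rfl⟩

/-- integer valued indicator -/
theorem ind_cast (K : Type*) [Field K] (c : Subgroup G) [DecidablePred (· ∈ c)] :
    ind K c = fun x => (((if x ∈ c then 1 else 0 : ℤ)) : K) := by
  funext x
  unfold ind
  by_cases h : x ∈ c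
  · rw [if_pos h, if_pos h]; simp
  · rw [if_neg h, if_neg h]; simp

theorem mem_Ccomm_of_span [Finite G] {p : ℕ} (hp : p.Prime) (hspan : CenterInRowSpan G)
    (hdvd : ∀ g : G, p ∣ (Subgroup.center G).relIndex (Subgroup.centralizer ({g} : Set G))) :
    p ∈ Ccomm G := by
  classical
  by_contra hC
  have : Fact p.Prime := ⟨hp⟩
  have h1 : latticeRank ℚ G ≤ latticeRank (ZMod p) G := by
    by_contra hcon
    exact hC ⟨hp, not_le.1 hcon⟩
  have h3 := finrank_rowSpan (G := G) ℚ
  have h4 := finrank_rowSpan (G := G) (ZMod p)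
  have hr : finrank ℚ (rowSpan ℚ G) ≤ finrank (ZMod p) (rowSpan (ZMod p) G) := by omega
  have hrange : ∀ (K : Type) [Field K],
      (Set.range fun c : elemCentralizers G => ind K (c : Subgroup G)) =
      Set.range fun (g : G) (x : G) =>
        (((if x ∈ Subgroup.centralizer ({g} : Set G) then 1 else 0 : ℤ)) : K) := by
    intro K _
    rw [range_ind]
    congr 1
    funext g
    exact ind_cast K _
  have hmem := IC.span_mod (p := p) (fun (g : G) (x : G) =>
      (if x ∈ Subgroup.centralizer ({g} : Set G) then (1 : ℤ) else 0))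
    (fun x => if x ∈ Subgroup.center G then (1 : ℤ) else 0) (by
      unfold rowSpan at hr
      rw [hrange ℚ, hrange (ZMod p)] at hr
      exact hr) (by
      unfold CenterInRowSpan at hspan
      rw [← range_ind, hrange ℚ, ind_cast] at hspan
      exact hspan)
  rw [← ind_cast (ZMod p), ← hrange (ZMod p)] at hmem
  -- the functional `f ↦ ∑ over cosets of the centre`
  have : Fintype (G ⧸ Subgroup.center G) := Fintype.ofFinite _
  let φ : (G → ZMod p) →ₗ[ZMod p] ZMod p :=
    { toFun := fun f => ∑ q : G ⧸ Subgroup.center G, f q.out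
      map_add' := fun f g => by simp [Finset.sum_add_distrib]
      map_smul' := fun a f => by simp [Finset.mul_sum] }
  have hφ : ∀ c : Subgroup G, Subgroup.center G ≤ c →
      φ (ind (ZMod p) c) = (((Subgroup.center G).relIndex c : ℕ) : ZMod p) := by
    intro c hc
    show ∑ q : G ⧸ Subgroup.center G, ind (ZMod p) c q.out = _
    unfold ind
    rw [Finset.sum_boole, ← card_out_mem hc, Nat.card_eq_fintype_card, Fintype.card_subtype]
  have hker : Submodule.span (ZMod p)
      (Set.range fun c : elemCentralizers G => ind (ZMod p) (c : Subgroup G)) ≤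
        LinearMap.ker φ := by
    rw [Submodule.span_le]
    rintro _ ⟨c, rfl⟩
    show φ (ind (ZMod p) (c : Subgroup G)) = 0
    rw [hφ _ (center_le_cent c), ZMod.natCast_eq_zero_iff, ← rep_spec c]
    exact hdvd _
  have h5 := hker hmem
  have h6 : φ (ind (ZMod p) (Subgroup.center G)) = 0 := h5
  rw [hφ _ le_rfl, Subgroup.relIndex_self] at h6
  simp at h6

/-- `p`-groups -/
theorem mem_Ccomm_of_pgroup_span [Finite G] {p : ℕ} (hp : p.Prime) (hG : IsPGroup p G)
    (hab : ¬ ∀ x y : G, x * y = y * x) (hspan : CenterInRowSpan G) : p ∈ Ccomm G := by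
  apply mem_Ccomm_of_span hp hspan
  intro g
  by_contra hk
  have hsub : ∀ c : Subgroup G, IsPGroup p c := fun c => hG.to_subgroup c
  have h1 : Subgroup.centralizer ({g} : Set G) ≤ Subgroup.center G :=
    le_center_of_le hp (hsub _) le_rfl hk
  have hg : g ∈ Subgroup.center G := h1 (mem_cent_singleton.2 rfl)
  have h2 : Subgroup.centralizer ({g} : Set G) = ⊤ := by
    have := congrArg Subtype.val ((C_eq_top_iff g).2 hg)
    simpa [C, cent_one] using this
  apply hab
  intro x y
  have hx : x ∈ Subgroup.center G := h1 (by rw [h2]; trivial)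
  exact (Subgroup.mem_center_iff.1 hx y).symm

end Pool.Agent.MP_5fbfc2_al
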