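import Mathlib
import Pool.Agent.Lib.MP_5fbfc2_al.Criterion

set_option autoImplicit false

namespace Pool.Agent.Lib.MP_5fbfc2_al

variable {G : Type*} [Group G]

/-- The subgroups `C(g) ∩ C(h)`, where `h` runs over the elements of `C(g)` which are not central
in `C(g)`. -/
def localCentralizers (G : Type*) [Group G] (g : G) : Set (Subgroup G) :=
  {A | ∃ h ∈ Subgroup.centralizer ({g} : Set G),
    (∃ x ∈ Subgroup.centralizer ({g} : Set G), x * h ≠ h * x) ∧
      A = Subgroup.centralizer ({g} : Set G) ⊓ Subgroup.centralizer ({h} : Set G)}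

theorem mem_cent' {a b : G} : b ∈ Subgroup.centralizer ({a} : Set G) ↔ b * a = a * b :=
  Subgroup.mem_centralizer_singleton_iff

theorem mem_cent {a b : G} : b ∈ Subgroup.centralizer ({a} : Set G) ↔ a * b = b * a :=
  mem_cent'.trans eq_comm

section

variable (g : G)

theorem eq_of_mem
    (hloc : ∀ A ∈ localCentralizers G g, (∀ x ∈ A, ∀ y ∈ A, x * y = y * x) ∧
      ∃ k : G, A = Subgroup.centralizer ({k} : Set G))
    {A : Subgroup G} (hA : A ∈ localCentralizers G g) {s : G} (hs : s ∈ A)
    (hsn : ∃ x ∈ Subgroup.centralizer ({g} : Set G), x * s ≠ s * x) :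
    A = Subgroup.centralizer ({g} : Set G) ⊓ Subgroup.centralizer ({s} : Set G) := by
  obtain ⟨h, hh, hhn, rfl⟩ := hA
  have hab := (hloc _ ⟨h, hh, hhn, rfl⟩).1
  have hsH : s ∈ Subgroup.centralizer ({g} : Set G) := hs.1
  have hab' := (hloc _ ⟨s, hsH, hsn, rfl⟩).1
  apply le_antisymm
  · intro x hx
    exact ⟨hx.1, mem_cent.2 (hab s hs x hx)⟩
  · intro x hx
    refine ⟨hx.1, ?_⟩
    have hhin : h ∈ Subgroup.centralizer ({g} : Set G) ⊓ Subgroup.centralizer ({s} : Set G) :=
      ⟨hh, mem_cent'.2 (mem_cent.1 hs.2)⟩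
    exact mem_cent.2 (hab' h hhin x hx)

end

theorem local_main [Fintype G] (g : G)
    (hna : ∃ x ∈ Subgroup.centralizer ({g} : Set G),
      ∃ y ∈ Subgroup.centralizer ({g} : Set G), x * y ≠ y * x)
    (hloc : ∀ A ∈ localCentralizers G g, (∀ x ∈ A, ∀ y ∈ A, x * y = y * x) ∧
      ∃ k : G, A = Subgroup.centralizer ({k} : Set G))
    (p : ℕ) (hp : p.Prime) (hb : 0 < (localCentralizers G g).ncard)
    (hpb : p ∣ (localCentralizers G g).ncard - 1) (hb2 : 2 ≤ (localCentralizers G g).ncard) :
    p ∈ Ccomm G := by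
  classical
  have hfinS : (localCentralizers G g).Finite := Set.toFinite _
  set F : Finset (Subgroup G) := hfinS.toFinset with hF
  have hmemF : ∀ A, A ∈ F ↔ A ∈ localCentralizers G g := fun A => hfinS.mem_toFinset
  have hcard : (localCentralizers G g).ncard = F.card := Set.ncard_eq_toFinset_card _ hfinS
  have hK : ∀ A : Subgroup G, ∃ k : G, A ∈ localCentralizers G g →
      A = Subgroup.centralizer ({k} : Set G) := by
    intro A
    by_cases hA : A ∈ localCentralizers G g
    · obtain ⟨k, hk⟩ := (hloc A hA).2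
      exact ⟨k, fun _ => hk⟩
    · exact ⟨1, fun h => absurd h hA⟩
  choose K hK using hK
  set b := (localCentralizers G g).ncard with hbdef
  -- factor `b - 1`
  have hb1 : b - 1 ≠ 0 := by omega
  obtain ⟨j, c, hcp, hjc⟩ := Nat.exists_eq_pow_mul_and_not_dvd hb1 p hp.ne_one
  have hj : j ≠ 0 := by
    rintro rfl
    rw [pow_zero, one_mul] at hjc
    exact hcp (hjc ▸ hpb)
  let X : G → Prop := fun s => s ∈ Subgroup.centralizer ({g} : Set G) ∧
    ∀ x ∈ Subgroup.centralizer ({g} : Set G), x * s = s * x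
  let y : G → ℤ := fun x => (∑ A ∈ F, if x = K A then (1 : ℤ) else 0) - if x = g then 1 else 0
  let w : G → ℤ := fun s => (c : ℤ) * if X s then 1 else 0
  have hsum : ∀ f : G → ℤ, ∑ x, y x * f x = (∑ A ∈ F, f (K A)) - f g := by
    intro f
    have h1 : ∀ x, y x * f x = (∑ A ∈ F, if x = K A then f x else 0) - if x = g then f x else 0 := by
      intro x
      simp only [y, sub_mul, Finset.sum_mul, ite_mul, one_mul, zero_mul]
    rw [Finset.sum_congr rfl fun x _ => h1 x, Finset.sum_sub_distrib, Finset.sum_comm]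
    congr 1
    · refine Finset.sum_congr rfl fun A _ => ?_
      rw [Finset.sum_ite_eq' Finset.univ (K A)]; simp
    · rw [Finset.sum_ite_eq' Finset.univ g]; simp
  have hrowK : ∀ A ∈ F, ∀ s : G, commRow (K A) s = if s ∈ A then 1 else 0 := by
    intro A hA s
    have h1 := hK A ((hmemF A).1 hA)
    unfold commRow
    have h2 : (K A * s = s * K A) ↔ s ∈ A := by
      rw [h1]
      conv_rhs => rw [mem_cent]
      rw [← h1]
    by_cases hs : s ∈ A
    · rw [if_pos hs, if_pos (h2.2 hs)]
    · rw [if_neg hs, if_neg (fun h => hs (h2.1 h))]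
  have hPy : ∀ s, ∑ h, y h * commRow h s = (p : ℤ) ^ j * w s := by
    intro s
    rw [hsum (fun h => commRow h s), Finset.sum_congr rfl fun A hA => hrowK A hA s]
    have hsumcard : (∑ A ∈ F, if s ∈ A then (1 : ℤ) else 0) = ((F.filter fun A => s ∈ A).card : ℤ) := by
      rw [Finset.card_filter]; push_cast; rfl
    rw [hsumcard]
    by_cases hsH : s ∈ Subgroup.centralizer ({g} : Set G)
    · have hg1 : commRow g s = 1 := by
        unfold commRow; exact if_pos (mem_cent.1 hsH)
      by_cases hX : ∀ x ∈ Subgroup.centralizer ({g} : Set G), x * s = s * x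
      · have hall : F.filter (fun A => s ∈ A) = F := by
          apply Finset.filter_true_of_mem
          intro A hA
          obtain ⟨h, hh, _, rfl⟩ := (hmemF A).1 hA
          exact ⟨hsH, mem_cent.2 (hX h hh)⟩
        have hw : w s = c := by
          simp only [w]
          rw [if_pos (show X s from ⟨hsH, hX⟩), mul_one]
        rw [hall, hg1, hw]
        have h4 : (F.card : ℤ) - 1 = ((b - 1 : ℕ) : ℤ) := by
          rw [← hcard, Nat.cast_sub (by omega : 1 ≤ b)]; simp
        rw [h4, hjc]
        push_cast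
        ring
      · push Not at hX
        have hw : w s = 0 := by
          simp only [w]
          rw [if_neg, mul_zero]
          rintro ⟨_, h⟩
          obtain ⟨x, hx, hxs⟩ := hX
          exact hxs (h x hx)
        have hone : F.filter (fun A => s ∈ A) =
            {Subgroup.centralizer ({g} : Set G) ⊓ Subgroup.centralizer ({s} : Set G)} := by
          ext A
          rw [Finset.mem_filter, Finset.mem_singleton, hmemF]
          constructor
          · rintro ⟨hA, hsA⟩
            exact eq_of_mem g hloc hA hsA hX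
          · rintro rfl
            exact ⟨⟨s, hsH, hX, rfl⟩, hsH, mem_cent.2 rfl⟩
        rw [hone, hg1, hw]
        simp
    · have hg0 : commRow g s = 0 := by
        unfold commRow; exact if_neg (fun h => hsH (mem_cent.2 h))
      have hw : w s = 0 := by
        simp only [w]
        rw [if_neg, mul_zero]
        rintro ⟨h, _⟩
        exact hsH h
      have hnone : F.filter (fun A => s ∈ A) = ∅ := by
        apply Finset.filter_false_of_mem
        intro A hA hsA
        obtain ⟨h, hh, _, rfl⟩ := (hmemF A).1 hA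
        exact hsH hsA.1
      rw [hnone, hg0, hw]
      simp
  refine mem_Ccomm_of_pairing hp j y w y w hPy hPy ?_
  rw [hsum w]
  have hKA : ∀ A ∈ F, w (K A) = 0 := by
    intro A hA
    have hA' := (hmemF A).1 hA
    have hKe := hK A hA'
    obtain ⟨h, hh, ⟨x, hx, hxh⟩, hAe⟩ := hA'
    simp only [w]
    rw [if_neg, mul_zero]
    rintro ⟨_, hcen⟩
    apply hxh
    have hxA : x ∈ A := by
      rw [hKe]
      exact mem_cent'.2 (hcen x hx)
    rw [hAe] at hxA
    exact mem_cent'.1 hxA.2
  have hwg : w g = c := by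
    simp only [w]
    rw [if_pos, mul_one]
    refine ⟨mem_cent.2 rfl, fun x hx => mem_cent'.1 hx⟩
  rw [Finset.sum_congr rfl hKA, hwg]
  simp only [Finset.sum_const_zero, zero_sub, dvd_neg]
  intro hdvd
  have h1 : (p : ℤ) ∣ (c : ℤ) := dvd_trans (dvd_pow_self _ hj) hdvd
  exact hcp (by exact_mod_cast h1)

theorem three_le [Finite G] (g : G)
    (hna : ∃ x ∈ Subgroup.centralizer ({g} : Set G),
      ∃ y ∈ Subgroup.centralizer ({g} : Set G), x * y ≠ y * x)
    (hloc : ∀ A ∈ localCentralizers G g, (∀ x ∈ A, ∀ y ∈ A, x * y = y * x) ∧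
      ∃ k : G, A = Subgroup.centralizer ({k} : Set G)) :
    3 ≤ (localCentralizers G g).ncard := by
  classical
  obtain ⟨x, hx, y, hy, hxy⟩ := hna
  have hfinS : (localCentralizers G g).Finite := Set.toFinite _
  -- the local centralizers of `x`, `y` and `x y`
  let C : G → Subgroup G := fun s =>
    Subgroup.centralizer ({g} : Set G) ⊓ Subgroup.centralizer ({s} : Set G)
  have hxyH : x * y ∈ Subgroup.centralizer ({g} : Set G) := Subgroup.mul_mem _ hx hy
  have h1 : C x ∈ localCentralizers G g := ⟨x, hx, ⟨y, hy, fun h => hxy h.symm⟩, rfl⟩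
  have h2 : C y ∈ localCentralizers G g := ⟨y, hy, ⟨x, hx, hxy⟩, rfl⟩
  have h3 : C (x * y) ∈ localCentralizers G g := by
    refine ⟨x * y, hxyH, ⟨x, hx, fun h => hxy ?_⟩, rfl⟩
    have : x * (x * y) = x * (y * x) := by rw [h]; group
    exact mul_left_cancel this
  have hxC : x ∈ C x := ⟨hx, mem_cent.2 rfl⟩
  have hyC : y ∈ C y := ⟨hy, mem_cent.2 rfl⟩
  have hxyC : x * y ∈ C (x * y) := ⟨hxyH, mem_cent.2 rfl⟩
  have h12 : C x ≠ C y := by
    intro h
    exact hxy ((hloc _ h2).1 x (h ▸ hxC) y hyC)
  have h13 : C x ≠ C (x * y) := by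
    intro h
    have h4 : x * y ∈ C x := h ▸ hxyC
    have h5 := (hloc _ h1).1 x hxC (x * y) h4
    apply hxy
    have : x * (x * y) = x * (y * x) := by rw [h5]; group
    exact mul_left_cancel this
  have h23 : C y ≠ C (x * y) := by
    intro h
    have h4 : x * y ∈ C y := h ▸ hxyC
    have h5 := (hloc _ h2).1 y hyC (x * y) h4
    apply hxy
    have : x * y * y = y * x * y := by rw [← h5]; group
    exact mul_right_cancel this
  have hsub : ({C x, C y, C (x * y)} : Finset (Subgroup G)) ⊆ hfinS.toFinset := by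
    intro A hA
    rw [Finset.mem_insert, Finset.mem_insert, Finset.mem_singleton] at hA
    rw [hfinS.mem_toFinset]
    rcases hA with rfl | rfl | rfl
    · exact h1
    · exact h2
    · exact h3
  have hc3 : ({C x, C y, C (x * y)} : Finset (Subgroup G)).card = 3 := by
    rw [Finset.card_eq_three]
    exact ⟨_, _, _, h12, h13, h23, rfl⟩
  rw [Set.ncard_eq_toFinset_card _ hfinS, ← hc3]
  exact Finset.card_le_card hsub

end Pool.Agent.Lib.MP_5fbfc2_al
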