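import Mathlib
import Pool.Agent.Lib.MP_5fbfc2_al.Local

set_option autoImplicit false

namespace Pool.Agent.Lib.MP_5fbfc2_al


/-- Let `g` be an element of a finite group `G` whose centralizer `C(g)` is not abelian, and suppose
that every `C(g) ∩ C(h)` (`h ∈ C(g)` not central in `C(g)`) is abelian and is the centralizer of an
element of `G`. If `b` is the number of these subgroups, then `b ≥ 3` and every prime divisor of
`b - 1` is in the commuting conductor of `G`; in particular the commuting conductor is not empty. -/
theorem localCentralizers_result (G : Type*) [Group G] [Finite G] (g : G)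
    (hna : ∃ x ∈ Subgroup.centralizer ({g} : Set G),
      ∃ y ∈ Subgroup.centralizer ({g} : Set G), x * y ≠ y * x)
    (hloc : ∀ A ∈ localCentralizers G g, (∀ x ∈ A, ∀ y ∈ A, x * y = y * x) ∧
      ∃ k : G, A = Subgroup.centralizer ({k} : Set G)) :
    3 ≤ (localCentralizers G g).ncard ∧
      (∀ p : ℕ, p.Prime → p ∣ (localCentralizers G g).ncard - 1 → p ∈ Ccomm G) ∧
      (Ccomm G).Nonempty := by
  have h3 := three_le g hna hloc
  have : Fintype G := Fintype.ofFinite G
  have hall : ∀ p : ℕ, p.Prime → p ∣ (localCentralizers G g).ncard - 1 → p ∈ Ccomm G :=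
    fun p hp hpb => local_main g hna hloc p hp (by omega) hpb (by omega)
  refine ⟨h3, hall, ?_⟩
  obtain ⟨p, hp, hpb⟩ := Nat.exists_prime_and_dvd
    (show (localCentralizers G g).ncard - 1 ≠ 1 by omega)
  exact ⟨p, hall p hp hpb⟩

end Pool.Agent.Lib.MP_5fbfc2_al
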