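import Pool.Agent.Lib.MP_5fbfc2_al.IndLin
import Pool.Agent.Lib.MP_5fbfc2_al.IC.MaxAb

/-!
# The rank mod `p` of a `p`-group and its maximal abelian subgroups (MP_5fbfc2_al)
-/

namespace Pool.Agent.MP_5fbfc2_al

open Module

variable {G : Type*} [Group G]

/-- the number of maximal abelian subgroups -/
noncomputable def numMaxAb (G : Type*) [Group G] : ℕ := Nat.card {A : Subgroup G // IsMaxAb A}

theorem rank_mod_le [Finite G] {p : ℕ} [Fact p.Prime]
    (hcard : ∀ x y : G, x * y = y * x →
      Nat.card {A : Subgroup G // IsMaxAb A ∧ x ∈ A ∧ y ∈ A} ≡ 1 [MOD p]) :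
    latticeRank (ZMod p) G + 1 ≤ numMaxAb G := by
  classical
  have : Fintype {A : Subgroup G // IsMaxAb A} := Fintype.ofFinite _
  rw [← finrank_rowSpan]
  let v : {A : Subgroup G // IsMaxAb A} → (G → ZMod p) := fun A => ind (ZMod p) (A : Subgroup G)
  have hle : rowSpan (ZMod p) G ≤ Submodule.span (ZMod p) (Set.range v) := by
    unfold rowSpan
    rw [Submodule.span_le]
    rintro _ ⟨⟨_, g, rfl⟩, rfl⟩
    have h1 : ind (ZMod p) (Subgroup.centralizer ({g} : Set G)) =
        ∑ A : {A : Subgroup G // IsMaxAb A}, (if g ∈ (A : Subgroup G) then (1 : ZMod p) else 0) • v A := by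
      funext x
      simp only [Finset.sum_apply, Pi.smul_apply, smul_eq_mul, v, ind, ite_mul, one_mul, zero_mul]
      have h2 : ∀ A : {A : Subgroup G // IsMaxAb A},
          (if g ∈ (A : Subgroup G) then (if x ∈ (A : Subgroup G) then (1 : ZMod p) else 0) else 0) =
            if (g ∈ (A : Subgroup G) ∧ x ∈ (A : Subgroup G)) then (1 : ZMod p) else 0 := by
        intro A
        by_cases h : g ∈ (A : Subgroup G) <;> by_cases h' : x ∈ (A : Subgroup G) <;> simp [h, h']
      rw [Finset.sum_congr rfl (fun A _ => h2 A), Finset.sum_boole]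
      by_cases hx : g * x = x * g
      · rw [if_pos (mem_cent_singleton.2 hx)]
        have h3 := hcard g x hx
        have h4 : Nat.card {A : Subgroup G // IsMaxAb A ∧ g ∈ A ∧ x ∈ A} =
            (Finset.univ.filter fun A : {A : Subgroup G // IsMaxAb A} =>
              g ∈ (A : Subgroup G) ∧ x ∈ (A : Subgroup G)).card := by
          rw [← Fintype.card_subtype, ← Nat.card_eq_fintype_card]
          apply Nat.card_congr
          exact
            { toFun := fun A => ⟨⟨A.1, A.2.1⟩, A.2.2⟩
              invFun := fun A => ⟨A.1.1, A.1.2, A.2⟩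
              left_inv := fun A => rfl
              right_inv := fun A => rfl }
        rw [← h4]
        have h5 := (ZMod.natCast_eq_natCast_iff _ _ _).2 h3
        rw [h5]; simp
      · rw [if_neg (fun h => hx (mem_cent_singleton.1 h))]
        have h3 : (Finset.univ.filter fun A : {A : Subgroup G // IsMaxAb A} =>
              g ∈ (A : Subgroup G) ∧ x ∈ (A : Subgroup G)) = ∅ := by
          apply Finset.filter_eq_empty_iff.2
          rintro A _ ⟨ha, hb⟩
          exact hx (A.2.1 g ha x hb)
        rw [h3]; simp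
    show ind (ZMod p) (Subgroup.centralizer ({g} : Set G)) ∈ _
    rw [h1]
    exact Submodule.sum_mem _ fun A _ => Submodule.smul_mem _ _ (Submodule.subset_span ⟨A, rfl⟩)
  calc finrank (ZMod p) (rowSpan (ZMod p) G)
      ≤ finrank (ZMod p) (Submodule.span (ZMod p) (Set.range v)) := Submodule.finrank_mono hle
    _ ≤ Fintype.card {A : Subgroup G // IsMaxAb A} := finrank_range_le_card v
    _ = numMaxAb G := by unfold numMaxAb; rw [Nat.card_eq_fintype_card]

/-- `p`-groups: `rank_{𝔽_p} M(G) ≤ b(G) - 1` -/
theorem rank_mod_le_pgroup [Finite G] {p : ℕ} (hp : p.Prime) (hG : IsPGroup p G) :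
    haveI : Fact p.Prime := ⟨hp⟩
    latticeRank (ZMod p) G + 1 ≤ numMaxAb G := by
  have : Fact p.Prime := ⟨hp⟩
  exact rank_mod_le (fun x y h => card_maxAb hG x y h)

/-- `p`-groups: `p ∈ Ccomm(G)` if `rank_ℚ M(G) ≥ b(G)` -/
theorem mem_Ccomm_of_rank [Finite G] {p : ℕ} (hp : p.Prime) (hG : IsPGroup p G)
    (hr : numMaxAb G ≤ latticeRank ℚ G) : p ∈ Ccomm G := by
  refine ⟨hp, ?_⟩
  have := rank_mod_le_pgroup hp hG
  omega

/-- every commuting pair lies in a maximal abelian subgroup -/
theorem exists_maxAb [Finite G] (B : Subgroup G) (hB : ∀ x ∈ B, ∀ y ∈ B, x * y = y * x) :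
    ∃ A : Subgroup G, IsMaxAb A ∧ B ≤ A := by
  have hfin : Set.Finite {C : Subgroup G | ∀ x ∈ C, ∀ y ∈ C, x * y = y * x} := Set.toFinite _
  obtain ⟨A, hBA, hA⟩ := hfin.exists_le_maximal (a := B) hB
  refine ⟨A, ⟨hA.prop, ?_⟩, hBA⟩
  intro C hC hAC
  exact le_antisymm hAC (hA.le_of_ge hC hAC)

theorem rank_rat_ge [Finite G] (hab : ¬ ∀ x y : G, x * y = y * x)
    (hcent : ∀ A : Subgroup G, IsMaxAb A → ∃ g : G, A = Subgroup.centralizer ({g} : Set G)) :
    numMaxAb G ≤ latticeRank ℚ G := by
  classical
  have : Fintype {A : Subgroup G // IsMaxAb A} := Fintype.ofFinite _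
  have h1 : numMaxAb G + 1 ≤ finrank ℚ (rowSpan ℚ G) := by
    let v : Option {A : Subgroup G // IsMaxAb A} → (G → ℚ) := fun o =>
      match o with
      | none => ind ℚ (⊤ : Subgroup G)
      | some A => ind ℚ (A : Subgroup G)
    have hmem : ∀ o, v o ∈ rowSpan ℚ G := by
      intro o
      cases o with
      | none =>
        show ind ℚ (⊤ : Subgroup G) ∈ _
        rw [← cent_one]; exact ind_mem_rowSpan ℚ 1
      | some A =>
        obtain ⟨g, hg⟩ := hcent A A.2
        show ind ℚ (A : Subgroup G) ∈ _
        rw [hg]; exact ind_mem_rowSpan ℚ g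
    have hind : LinearIndependent ℚ v := by
      rw [Fintype.linearIndependent_iff]
      intro t ht
      rw [Fintype.sum_option] at ht
      have hA : ∀ A : {A : Subgroup G // IsMaxAb A}, t (some A) = - t none := by
        intro A
        obtain ⟨g, hg⟩ := hcent A A.2
        have h2 := congrFun ht g
        simp only [Pi.add_apply, Finset.sum_apply, Pi.smul_apply, smul_eq_mul, Pi.zero_apply] at h2
        have hgA : g ∈ (A : Subgroup G) := by rw [hg]; exact mem_cent_singleton.2 rfl
        have h3 : ∀ B : {A : Subgroup G // IsMaxAb A}, B ≠ A → v (some B) g = 0 := by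
          intro B hBA
          show ind ℚ (B : Subgroup G) g = 0
          unfold ind
          rw [if_neg]
          intro hgB
          apply hBA
          have h4 : (B : Subgroup G) ≤ A := by
            intro y hy
            rw [hg]
            exact mem_cent_singleton.2 (B.2.1 g hgB y hy)
          exact Subtype.ext (B.2.2 A A.2.1 h4)
        rw [Finset.sum_eq_single A (fun B _ hB => by rw [h3 B hB, mul_zero])
          (fun h => absurd (Finset.mem_univ _) h)] at h2
        have h5 : v none g = 1 := by
          show ind ℚ (⊤ : Subgroup G) g = 1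
          unfold ind; rw [if_pos (Subgroup.mem_top g)]
        have h6 : v (some A) g = 1 := by
          show ind ℚ (A : Subgroup G) g = 1
          unfold ind; rw [if_pos hgA]
        rw [h5, h6] at h2
        linarith
      have h0 := congrFun ht 1
      simp only [Pi.add_apply, Finset.sum_apply, Pi.smul_apply, smul_eq_mul, Pi.zero_apply] at h0
      have h7 : v none 1 = 1 := by
        show ind ℚ (⊤ : Subgroup G) 1 = 1
        unfold ind; rw [if_pos (Subgroup.mem_top _)]
      have h8 : ∀ A, v (some A) 1 = 1 := by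
        intro A
        show ind ℚ (A : Subgroup G) 1 = 1
        unfold ind; rw [if_pos (Subgroup.one_mem _)]
      simp_rw [h7, h8, hA] at h0
      rw [Finset.sum_const, Finset.card_univ, nsmul_eq_mul] at h0
      have hb : 2 ≤ Fintype.card {A : Subgroup G // IsMaxAb A} := by
        by_contra hlt
        apply hab
        intro x y
        obtain ⟨A, hA1, hA2⟩ := exists_maxAb (Subgroup.zpowers x) (by
          rintro a ⟨m, rfl⟩ b ⟨n, rfl⟩
          exact (Commute.zpow_zpow (Commute.refl x) m n))
        obtain ⟨B, hB1, hB2⟩ := exists_maxAb (Subgroup.zpowers y) (by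
          rintro a ⟨m, rfl⟩ b ⟨n, rfl⟩
          exact (Commute.zpow_zpow (Commute.refl y) m n))
        have hsub : (⟨A, hA1⟩ : {A : Subgroup G // IsMaxAb A}) = ⟨B, hB1⟩ :=
          (Fintype.card_le_one_iff.1 (by omega)) _ _
        have hAB : A = B := congrArg Subtype.val hsub
        exact hA1.1 x (hA2 (Subgroup.mem_zpowers x)) y (by rw [hAB]; exact hB2 (Subgroup.mem_zpowers y))
      have hb' : (2 : ℚ) ≤ (Fintype.card {A : Subgroup G // IsMaxAb A} : ℚ) := by exact_mod_cast hb
      have ht0 : t none = 0 := by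
        have h9 : (1 - (Fintype.card {A : Subgroup G // IsMaxAb A} : ℚ)) * t none = 0 := by
          linarith
        rcases mul_eq_zero.1 h9 with h | h
        · linarith
        · exact h
      intro o
      cases o with
      | none => exact ht0
      | some A => rw [hA, ht0, neg_zero]
    have h2 := finrank_span_eq_card hind
    have h3 : Submodule.span ℚ (Set.range v) ≤ rowSpan ℚ G := by
      rw [Submodule.span_le]
      rintro _ ⟨o, rfl⟩
      exact hmem o
    have h4 := Submodule.finrank_mono h3
    rw [h2, Fintype.card_option] at h4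
    unfold numMaxAb
    rw [Nat.card_eq_fintype_card]
    exact h4
  rw [finrank_rowSpan] at h1
  omega

end Pool.Agent.MP_5fbfc2_al
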