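import Pool.Agent.Lib.MP_5fbfc2_al.IndSpan
import Pool.Agent.Lib.MP_5fbfc2_al.AltRank

/-!
# Parity of the rank (MP_5fbfc2_al)
-/

namespace Pool.Agent.MP_5fbfc2_al

open Module

variable {G : Type*} [Group G]

/-- the non-commuting matrix over `K` -/
noncomputable def nonComm (K : Type*) [Field K] (G : Type*) [Group G] : Matrix G G K :=
  fun g h => ind K (⊤ : Subgroup G) h - ind K (Subgroup.centralizer ({g} : Set G)) h

theorem latticeImage_eq_span_rows (K : Type*) [Field K] :
    latticeImage K G = Submodule.span K (Set.range (nonComm K G)) := by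
  rw [latticeImage_eq]
  apply le_antisymm
  · rw [Submodule.span_le]
    rintro w ⟨g, g', rfl⟩
    have : ind K (Subgroup.centralizer ({g} : Set G)) - ind K (Subgroup.centralizer ({g'} : Set G)) =
        nonComm K G g' - nonComm K G g := by
      funext h
      simp only [nonComm, Pi.sub_apply]
      ring
    rw [this]
    exact Submodule.sub_mem _ (Submodule.subset_span ⟨g', rfl⟩) (Submodule.subset_span ⟨g, rfl⟩)
  · rw [Submodule.span_le]
    rintro _ ⟨g, rfl⟩
    apply Submodule.subset_span
    refine ⟨1, g, ?_⟩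
    rw [cent_one]
    rfl

theorem nonComm_symm (K : Type*) [Field K] (g h : G) : nonComm K G g h = nonComm K G h g := by
  unfold nonComm ind
  have h1 : h ∈ Subgroup.centralizer ({g} : Set G) ↔ g ∈ Subgroup.centralizer ({h} : Set G) := by
    rw [mem_cent_singleton, mem_cent_singleton]; exact eq_comm
  by_cases hh : h ∈ Subgroup.centralizer ({g} : Set G)
  · rw [if_pos hh, if_pos (h1.1 hh), if_pos (Subgroup.mem_top _), if_pos (Subgroup.mem_top _)]
  · rw [if_neg hh, if_neg (fun h' => hh (h1.2 h')), if_pos (Subgroup.mem_top _),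
      if_pos (Subgroup.mem_top _)]

theorem nonComm_self (K : Type*) [Field K] (g : G) : nonComm K G g g = 0 := by
  unfold nonComm ind
  rw [if_pos (Subgroup.mem_top _), if_pos (mem_cent_singleton.2 rfl), sub_self]

theorem even_latticeRank_two [Finite G] : Even (latticeRank (ZMod 2) G) := by
  classical
  have : Fintype G := Fintype.ofFinite G
  let B : LinearMap.BilinForm (ZMod 2) (G → ZMod 2) := Matrix.toBilin' (nonComm (ZMod 2) G)
  have hB : B.IsAlt := by
    intro u
    show Matrix.toBilin' (nonComm (ZMod 2) G) u u = 0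
    rw [Matrix.toBilin'_apply, ← Finset.sum_product']
    apply Finset.sum_involution (fun a _ => (a.2, a.1))
    · rintro ⟨g, h⟩ _
      simp only
      rw [nonComm_symm (ZMod 2) h g]
      have h2 : u h * nonComm (ZMod 2) G g h * u g = u g * nonComm (ZMod 2) G g h * u h := by ring
      rw [h2]
      exact CharTwo.add_self_eq_zero _
    · rintro ⟨g, h⟩ _ hne heq
      apply hne
      have h3 : h = g := congrArg Prod.fst heq
      simp only
      rw [h3, nonComm_self, mul_zero, zero_mul]
    · rintro ⟨g, h⟩ _
      exact Finset.mem_product.2 ⟨Finset.mem_univ _, Finset.mem_univ _⟩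
    · rintro ⟨g, h⟩ _
      rfl
  have heven := even_finrank_range_of_isAlt B hB
  let φ : ((G → ZMod 2) →ₗ[ZMod 2] ZMod 2) →ₗ[ZMod 2] (G → ZMod 2) :=
    { toFun := fun f h => f (Pi.single h 1)
      map_add' := fun f g => rfl
      map_smul' := fun a f => rfl }
  have hφ : Function.Injective φ := by
    intro f g hfg
    apply LinearMap.pi_ext'
    intro h
    apply LinearMap.ext_ring
    exact congrFun hfg h
  have hrange : (LinearMap.range B).map φ = latticeImage (ZMod 2) G := by
    rw [latticeImage_eq_span_rows]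
    apply le_antisymm
    · rintro _ ⟨_, ⟨u, rfl⟩, rfl⟩
      have h1 : φ (B u) = ∑ g, u g • nonComm (ZMod 2) G g := by
        funext h
        show Matrix.toBilin' (nonComm (ZMod 2) G) u (Pi.single h 1) = _
        rw [Matrix.toBilin'_apply, Finset.sum_apply]
        apply Finset.sum_congr rfl
        intro g _
        rw [Finset.sum_eq_single h]
        · rw [Pi.single_eq_same, mul_one]; rfl
        · intro h' _ hne
          rw [Pi.single_eq_of_ne hne, mul_zero]
        · intro hh; exact absurd (Finset.mem_univ _) hh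
      rw [h1]
      exact Submodule.sum_mem _ fun g _ => Submodule.smul_mem _ _ (Submodule.subset_span ⟨g, rfl⟩)
    · rw [Submodule.span_le]
      rintro _ ⟨g, rfl⟩
      refine ⟨B (Pi.single g 1), ⟨_, rfl⟩, ?_⟩
      funext h
      show Matrix.toBilin' (nonComm (ZMod 2) G) (Pi.single g 1) (Pi.single h 1) = _
      rw [Matrix.toBilin'_single]
  unfold latticeRank
  rw [← hrange, ← (Submodule.equivMapOfInjective φ hφ (LinearMap.range B)).finrank_eq]
  exact heven

/-- reduction mod `p` does not increase the rank -/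
theorem latticeRank_mod_le [Finite G] (p : ℕ) [hp : Fact p.Prime] :
    latticeRank (ZMod p) G ≤ latticeRank ℚ G := by
  classical
  let v : G → G → ℤ := fun g x => if x ∈ Subgroup.centralizer ({g} : Set G) then 1 else 0
  have hv : ∀ (K : Type) [Field K] (g : G),
      (fun x => ((v g x : ℤ) : K)) = ind K (Subgroup.centralizer ({g} : Set G)) :=
    fun K _ g => (ind_cast K _).symm
  obtain ⟨κ, a, ha, hspan, hli⟩ := exists_linearIndependent' (ZMod p)
    (fun (g : G) => ind (ZMod p) (Subgroup.centralizer ({g} : Set G)))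
  have : Finite κ := Finite.of_injective a ha
  have : Fintype κ := Fintype.ofFinite κ
  have h1 : LinearIndependent (ZMod p) (fun (i : κ) (x : G) => ((v (a i) x : ℤ) : ZMod p)) := by
    have heq : (fun (i : κ) (x : G) => ((v (a i) x : ℤ) : ZMod p)) =
        (fun (g : G) => ind (ZMod p) (Subgroup.centralizer ({g} : Set G))) ∘ a := by
      funext i
      exact hv (ZMod p) (a i)
    rw [heq]
    exact hli
  have h2 := IC.indep_lift (p := p) (fun i => v (a i)) h1
  have h3 : finrank (ZMod p) (rowSpan (ZMod p) G) = Fintype.card κ := by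
    unfold rowSpan
    rw [range_ind, ← hspan, finrank_span_eq_card hli]
  have h4 : Fintype.card κ ≤ finrank ℚ (rowSpan ℚ G) := by
    rw [← finrank_span_eq_card h2]
    apply Submodule.finrank_mono
    rw [Submodule.span_le]
    rintro _ ⟨i, rfl⟩
    show (fun x => ((v (a i) x : ℤ) : ℚ)) ∈ rowSpan ℚ G
    rw [hv ℚ (a i)]
    exact ind_mem_rowSpan ℚ (a i)
  have h5 := finrank_rowSpan (G := G) ℚ
  have h6 := finrank_rowSpan (G := G) (ZMod p)
  omega

/-- If the rank of `M(G)` is odd then `2 ∈ Ccomm(G)`. -/
theorem two_mem_Ccomm_of_odd [Finite G] (h : Odd (latticeRank ℚ G)) : 2 ∈ Ccomm G := by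
  refine ⟨Nat.prime_two, ?_⟩
  have h1 := even_latticeRank_two (G := G)
  have h2 := latticeRank_mod_le (G := G) 2
  obtain ⟨a, ha⟩ := h1
  obtain ⟨b, hb⟩ := h
  have : latticeRank (ZMod 2) G < latticeRank ℚ G := by omega
  exact this

end Pool.Agent.MP_5fbfc2_al
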