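import Mathlib
import Pool.Agent.Lib.MP_5fbfc2_al.Family

set_option autoImplicit false

namespace Pool.Agent.Lib.MP_5fbfc2_al

open Equiv

/-- One element of each subgroup generated by a 3-cycle, a 4-cycle or a 5-cycle of `S_5`, and the
identity. -/
def a5 : Fin 32 → Perm (Fin 5) :=
  ![1,
    swap 0 1 * swap 1 2,
    swap 0 1 * swap 1 3,
    swap 0 1 * swap 1 4,
    swap 0 2 * swap 2 3,
    swap 0 2 * swap 2 4,
    swap 0 3 * swap 3 4,
    swap 1 2 * swap 2 3,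
    swap 1 2 * swap 2 4,
    swap 1 3 * swap 3 4,
    swap 2 3 * swap 3 4,
    swap 0 1 * swap 1 2 * swap 2 3,
    swap 0 1 * swap 1 3 * swap 3 2,
    swap 0 2 * swap 2 1 * swap 1 3,
    swap 0 1 * swap 1 2 * swap 2 4,
    swap 0 1 * swap 1 4 * swap 4 2,
    swap 0 2 * swap 2 1 * swap 1 4,
    swap 0 1 * swap 1 3 * swap 3 4,
    swap 0 1 * swap 1 4 * swap 4 3,
    swap 0 3 * swap 3 1 * swap 1 4,
    swap 0 2 * swap 2 3 * swap 3 4,
    swap 0 2 * swap 2 4 * swap 4 3,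
    swap 0 3 * swap 3 2 * swap 2 4,
    swap 1 2 * swap 2 3 * swap 3 4,
    swap 1 2 * swap 2 4 * swap 4 3,
    swap 1 3 * swap 3 2 * swap 2 4,
    swap 0 1 * swap 1 2 * swap 2 3 * swap 3 4,
    swap 0 1 * swap 1 2 * swap 2 4 * swap 4 3,
    swap 0 1 * swap 1 3 * swap 3 2 * swap 2 4,
    swap 0 1 * swap 1 3 * swap 3 4 * swap 4 2,
    swap 0 1 * swap 1 4 * swap 4 2 * swap 2 3,
    swap 0 1 * swap 1 4 * swap 4 3 * swap 3 2]

def c5 : Fin 32 → ℤ :=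
  ![-1, 1, 1, 1, 1, 1, 1, 1, 1, 1, 1, 1, 1, 1, 1, 1, 1, 1, 1, 1, 1, 1, 1, 1, 1, 1, 1, 1, 1, 1, 1, 1]

theorem h5 : ∀ s : Perm (Fin 5),
    (3 : ℤ) ∣ ∑ i, c5 i * (if a5 i * s = s * a5 i then 1 else 0) := by
  decide +kernel

theorem n5 : ¬ ((3 : ℤ) ^ 2 ∣
    ∑ i, ∑ j, c5 i * c5 j * (if a5 i * a5 j = a5 j * a5 i then 1 else 0)) := by
  decide +kernel

/-- Eight elements of `S_3 × S_3` in `S_6`. -/
def a6 : Fin 8 → Perm (Fin 6) :=
  ![swap 3 4 * swap 4 5,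
    swap 0 1 * (swap 3 4 * swap 4 5),
    swap 0 2 * (swap 3 4 * swap 4 5),
    swap 1 2 * (swap 3 4 * swap 4 5),
    swap 0 1 * swap 1 2,
    swap 3 4 * (swap 0 1 * swap 1 2),
    swap 3 5 * (swap 0 1 * swap 1 2),
    swap 4 5 * (swap 0 1 * swap 1 2)]

def c6 : Fin 8 → ℤ :=
  ![-1, 1, 1, 1, 1, -1, -1, -1]

theorem h6 : ∀ s : Perm (Fin 6),
    (3 : ℤ) ∣ ∑ i, c6 i * (if a6 i * s = s * a6 i then 1 else 0) := by
  decide +kernel

theorem n6 : ¬ ((3 : ℤ) ^ 2 ∣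
    ∑ i, ∑ j, c6 i * c6 j * (if a6 i * a6 j = a6 j * a6 i then 1 else 0)) := by
  decide +kernel

theorem commRow_eq {G : Type*} [Group G] [DecidableEq G] (a s : G) :
    commRow a s = if a * s = s * a then 1 else 0 := by
  unfold commRow
  by_cases h : a * s = s * a
  · rw [if_pos h, if_pos h]
  · rw [if_neg h, if_neg h]

theorem sym_five_six {β : Type*} [Finite β] (hβ : Nat.card β = 5 ∨ Nat.card β = 6) :
    3 ∈ Ccomm (Perm β) := by
  rcases hβ with h | h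
  · obtain ⟨e⟩ := Finite.card_eq.1 (show Nat.card (Fin 5) = Nat.card β by rw [h]; simp)
    refine mem_Ccomm_of_family_equiv e.permCongrHom Nat.prime_three a5 c5 ?_ ?_
    · intro s; simpa only [commRow_eq, Nat.cast_ofNat] using h5 s
    · simpa only [commRow_eq, Nat.cast_ofNat] using n5
  · obtain ⟨e⟩ := Finite.card_eq.1 (show Nat.card (Fin 6) = Nat.card β by rw [h]; simp)
    refine mem_Ccomm_of_family_equiv e.permCongrHom Nat.prime_three a6 c6 ?_ ?_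
    · intro s; simpa only [commRow_eq, Nat.cast_ofNat] using h6 s
    · simpa only [commRow_eq, Nat.cast_ofNat] using n6

end Pool.Agent.Lib.MP_5fbfc2_al
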