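import Mathlib
import Pool.Agent.Lib.MP_5fbfc2_al.Family

set_option autoImplicit false

namespace Pool.Agent.Lib.MP_5fbfc2_al

open Equiv Equiv.Perm

/-- The permutations of `Fin 3 ⊕ ZMod m` commuting with `τ ⊕ (x ↦ x + 1)` preserve the two blocks,
when `m ≥ 4`. -/
theorem block_of_commute {m : ℕ} [NeZero m] (hm : 4 ≤ m) (τ : Perm (Fin 3))
    (s : Perm (Fin 3 ⊕ ZMod m))
    (hs : Equiv.sumCongr τ (Equiv.addRight (1 : ZMod m)) * s =
      s * Equiv.sumCongr τ (Equiv.addRight (1 : ZMod m))) :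
    ∃ (s1 : Perm (Fin 3)) (k : ZMod m), s = Equiv.sumCongr s1 (Equiv.addRight k) := by
  set c : Perm (Fin 3 ⊕ ZMod m) := Equiv.sumCongr τ (Equiv.addRight (1 : ZMod m)) with hc
  have hcr : ∀ x : ZMod m, c (Sum.inr x) = Sum.inr (x + 1) := by
    intro x; simp [hc]
  have hcl : ∀ i : Fin 3, c (Sum.inl i) = Sum.inl (τ i) := by
    intro i; simp [hc]
  have hcom : ∀ z, c (s z) = s (c z) := fun z => congrArg (fun f : Perm _ => f z) hs
  -- points of the second block stay there
  have hright : ∀ x : ZMod m, ∃ y : ZMod m, s (Sum.inr x) = Sum.inr y := by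
    intro x
    cases hx : s (Sum.inr x) with
    | inr y => exact ⟨y, rfl⟩
    | inl i =>
      exfalso
      have hiter : ∀ t : ℕ, s (Sum.inr (x + t)) = Sum.inl ((τ ^ t) i) := by
        intro t
        induction t with
        | zero => simpa using hx
        | succ t ih =>
          have h1 : (Sum.inr (x + (t + 1 : ℕ)) : Fin 3 ⊕ ZMod m) = c (Sum.inr (x + t)) := by
            rw [hcr]; push_cast; rw [add_assoc]
          rw [h1, ← hcom, ih, hcl, pow_succ']
          rfl
      obtain ⟨t, t', hne, heq⟩ := Fintype.exists_ne_map_eq_of_card_lt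
        (fun t : Fin 4 => (τ ^ (t : ℕ)) i) (by simp)
      have h2 : s (Sum.inr (x + (t : ℕ))) = s (Sum.inr (x + (t' : ℕ))) := by
        have heq' : (τ ^ (t : ℕ)) i = (τ ^ (t' : ℕ)) i := heq
        rw [hiter, hiter, heq']
      have h3 := Sum.inr_injective (s.injective h2)
      have h4 : (((t : ℕ) : ZMod m)) = ((t' : ℕ) : ZMod m) := add_left_cancel h3
      have h5 := (ZMod.natCast_eq_natCast_iff' _ _ _).1 h4
      rw [Nat.mod_eq_of_lt (by omega), Nat.mod_eq_of_lt (by omega)] at h5
      exact hne (Fin.ext h5)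
  have hmaps : Set.MapsTo s (Set.range Sum.inl) (Set.range Sum.inl) := by
    rw [Equiv.Perm.perm_mapsTo_inl_iff_mapsTo_inr]
    rintro _ ⟨x, rfl⟩
    obtain ⟨y, hy⟩ := hright x
    exact ⟨y, hy.symm⟩
  obtain ⟨⟨s1, s2⟩, hs12⟩ := Equiv.Perm.mem_sumCongrHom_range_of_perm_mapsTo_inl hmaps
  have hs' : s = Equiv.sumCongr s1 s2 := hs12.symm
  refine ⟨s1, s2 0, ?_⟩
  rw [hs']
  have hs2 : ∀ x : ZMod m, s2 (x + 1) = s2 x + 1 := by
    intro x
    have h6 := hcom (Sum.inr x)
    rw [hcr, hs'] at h6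
    simp only [Equiv.sumCongr_apply, Sum.map_inr] at h6
    rw [hcr] at h6
    exact (Sum.inr_injective h6).symm
  have hs2' : ∀ n : ℕ, s2 (n : ZMod m) = n + s2 0 := by
    intro n
    induction n with
    | zero => simp
    | succ n ih => push_cast; rw [hs2, ih]; ring
  have hs2e : s2 = Equiv.addRight (s2 0) := by
    ext x
    have h7 : s2 x = x + s2 0 := by
      have := hs2' x.val
      rwa [ZMod.natCast_zmod_val] at this
    rw [h7]; rfl
  rw [← hs2e]

theorem commute_block {m : ℕ} (τ s1 : Perm (Fin 3)) (k : ZMod m) :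
    (Equiv.sumCongr τ (Equiv.addRight (1 : ZMod m)) * Equiv.sumCongr s1 (Equiv.addRight k) :
      Perm (Fin 3 ⊕ ZMod m)) =
      Equiv.sumCongr s1 (Equiv.addRight k) * Equiv.sumCongr τ (Equiv.addRight (1 : ZMod m)) ↔
      τ * s1 = s1 * τ := by
  constructor
  · intro h
    ext i
    have h1 := congrArg (fun f : Perm (Fin 3 ⊕ ZMod m) => f (Sum.inl i)) h
    simp only [Equiv.Perm.mul_apply, Equiv.sumCongr_apply, Sum.map_inl] at h1
    have h2 := Sum.inl_injective h1
    simp only [Equiv.Perm.mul_apply, h2]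
  · intro h
    ext z
    cases z with
    | inl i =>
      have h1 := congrArg (fun f : Perm (Fin 3) => f i) h
      simp only [Equiv.Perm.mul_apply] at h1
      simp only [Equiv.Perm.mul_apply, Equiv.sumCongr_apply, Sum.map_inl, h1]
    | inr x =>
      simp only [Equiv.Perm.mul_apply, Equiv.sumCongr_apply, Sum.map_inr, Equiv.coe_addRight]
      congr 1
      ring

/-- The five elements: `(0 1 2)`, `(0 1)`, `(0 2)`, `(1 2)` and `1` on the first block. -/
def tau : Fin 5 → Perm (Fin 3) :=
  ![Equiv.swap 0 1 * Equiv.swap 1 2, Equiv.swap 0 1, Equiv.swap 0 2, Equiv.swap 1 2, 1]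

def coef : Fin 5 → ℤ := ![1, 1, 1, 1, -1]

theorem tau_sum : ∀ s : Perm (Fin 3),
    (3 : ℤ) ∣ ∑ i, coef i * (if tau i * s = s * tau i then 1 else 0) := by
  decide

theorem tau_norm :
    ∑ i, ∑ j, coef i * coef j * (if tau i * tau j = tau j * tau i then 1 else 0) = (-3 : ℤ) := by
  decide

theorem sym_large_aux {m : ℕ} [NeZero m] (hm : 4 ≤ m) {β : Type*} [Finite β]
    (e : (Fin 3 ⊕ ZMod m) ≃ β) : 3 ∈ Ccomm (Perm β) := by
  classical
  let a : Fin 5 → Perm (Fin 3 ⊕ ZMod m) := fun i =>
    Equiv.sumCongr (tau i) (Equiv.addRight (1 : ZMod m))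
  refine mem_Ccomm_of_family_equiv e.permCongrHom Nat.prime_three a coef ?_ ?_
  · intro s
    by_cases hb : ∃ (s1 : Perm (Fin 3)) (k : ZMod m), s = Equiv.sumCongr s1 (Equiv.addRight k)
    · obtain ⟨s1, k, rfl⟩ := hb
      have h1 : ∀ i, commRow (a i) (Equiv.sumCongr s1 (Equiv.addRight k) : Perm _) =
          if tau i * s1 = s1 * tau i then 1 else 0 := by
        intro i
        unfold commRow
        have := commute_block (m := m) (tau i) s1 k
        by_cases hc : tau i * s1 = s1 * tau i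
        · rw [if_pos hc, if_pos (this.2 hc)]
        · rw [if_neg hc, if_neg (fun h => hc (this.1 h))]
      simp only [h1]
      exact tau_sum s1
    · have h1 : ∀ i, commRow (a i) s = 0 := by
        intro i
        unfold commRow
        rw [if_neg]
        intro h
        exact hb (block_of_commute hm (tau i) s h)
      simp [h1]
  · have h1 : ∀ i j, commRow (a i) (a j) = if tau i * tau j = tau j * tau i then 1 else 0 := by
      intro i j
      unfold commRow
      have := commute_block (m := m) (tau i) (tau j) 1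
      by_cases hc : tau i * tau j = tau j * tau i
      · rw [if_pos hc, if_pos (this.2 hc)]
      · rw [if_neg hc, if_neg (fun h => hc (this.1 h))]
    simp only [h1]
    rw [tau_norm]
    norm_num

theorem sym_large {β : Type*} [Finite β] (hβ : 7 ≤ Nat.card β) : 3 ∈ Ccomm (Perm β) := by
  have : NeZero (Nat.card β - 3) := ⟨by omega⟩
  have hcard : Nat.card (Fin 3 ⊕ ZMod (Nat.card β - 3)) = Nat.card β := by
    rw [Nat.card_sum, Nat.card_eq_fintype_card, Fintype.card_fin, Nat.card_eq_fintype_card,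
      ZMod.card]
    omega
  obtain ⟨e⟩ := Finite.card_eq.1 hcard
  exact sym_large_aux (by omega) e

end Pool.Agent.Lib.MP_5fbfc2_al
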