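import Mathlib
import Pool.Agent.Lib.MP_5fbfc2_al.Family

set_option autoImplicit false

namespace Pool.Agent.Lib.MP_5fbfc2_al

open Equiv Equiv.Perm Nat

variable {β : Type*} [Fintype β] [DecidableEq β]

theorem cycleType_of_conditions {q : ℕ} (m : Multiset ℕ)
    (hq : (q = 3 ∧ (Fintype.card β = 3 ∨ Fintype.card β = 4)) ∨
      (q = 5 ∧ (Fintype.card β = 5 ∨ Fintype.card β = 6)))
    (h2 : ∀ a ∈ m, 2 ≤ a) (hsum : m.sum ≤ Fintype.card β)
    (hodd : ∀ a ∈ m, Odd a) (hle : Fintype.card β ≤ m.sum + 1) (hcount : ∀ i, m.count i ≤ 1) :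
    m = {q} := by
  have h3 : ∀ a ∈ m, 3 ≤ a := by
    intro a ha
    obtain ⟨k, hk⟩ := hodd a ha
    have := h2 a ha
    omega
  rcases m.empty_or_exists_mem with rfl | ⟨a, ha⟩
  · simp at hle
    omega
  · obtain ⟨m', rfl⟩ := Multiset.exists_cons_of_mem ha
    rcases m'.empty_or_exists_mem with rfl | ⟨b, hb⟩
    · have ha3 := h3 a ha
      obtain ⟨k, hk⟩ := hodd a ha
      simp only [Multiset.cons_zero, Multiset.sum_singleton] at hsum hle
      have : a = q := by omega
      rw [this]; rfl
    · exfalso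
      obtain ⟨m'', rfl⟩ := Multiset.exists_cons_of_mem hb
      have ha3 := h3 a ha
      have hb3 := h3 b (Multiset.mem_cons_of_mem hb)
      simp only [Multiset.sum_cons] at hsum hle
      have hab : a = b := by omega
      have hc := hcount a
      rw [← hab, Multiset.count_cons_self, Multiset.count_cons_self] at hc
      omega

theorem cent_le_iff {q : ℕ}
    (hq : (q = 3 ∧ (Fintype.card β = 3 ∨ Fintype.card β = 4)) ∨
      (q = 5 ∧ (Fintype.card β = 5 ∨ Fintype.card β = 6))) (g : Perm β) :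
    (∀ h ∈ Subgroup.centralizer ({g} : Set (Perm β)), sign h = 1) ↔ g.cycleType = {q} := by
  have h1 : (∀ h ∈ Subgroup.centralizer ({g} : Set (Perm β)), sign h = 1) ↔
      Subgroup.centralizer ({g} : Set (Perm β)) ≤ alternatingGroup β := by
    rw [SetLike.le_def]
    constructor
    · intro h x hx; exact mem_alternatingGroup.2 (h x hx)
    · intro h x hx; exact mem_alternatingGroup.1 (h hx)
  rw [h1, centralizer_le_alternating_iff]
  constructor
  · rintro ⟨hodd, hle, hcount⟩
    apply cycleType_of_conditions (β := β) _ hq _ _ hodd hle hcount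
    · intro a ha; exact two_le_of_mem_cycleType ha
    · rw [sum_cycleType]; exact Finset.card_le_univ _
  · intro hg
    rw [hg]
    refine ⟨?_, ?_, ?_⟩
    · intro c hc
      rw [Multiset.mem_singleton] at hc
      rw [hc]
      rcases hq with ⟨rfl, _⟩ | ⟨rfl, _⟩ <;> decide
    · rw [Multiset.sum_singleton]; omega
    · intro i
      have := Multiset.nodup_iff_count_le_one.1 (Multiset.nodup_singleton q) i
      exact this

theorem card_cent {q : ℕ}
    (hq : (q = 3 ∧ (Fintype.card β = 3 ∨ Fintype.card β = 4)) ∨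
      (q = 5 ∧ (Fintype.card β = 5 ∨ Fintype.card β = 6))) (g : Perm β) (hg : g.cycleType = {q}) :
    Nat.card (Subgroup.centralizer ({g} : Set (Perm β))) = q := by
  rw [nat_card_centralizer, hg]
  have h1 : (Fintype.card β - q) ! = 1 := by
    have : Fintype.card β - q = 0 ∨ Fintype.card β - q = 1 := by omega
    rcases this with h | h <;> rw [h] <;> rfl
  simp [h1]

theorem count_pairs {q : ℕ}
    (hq : (q = 3 ∧ (Fintype.card β = 3 ∨ Fintype.card β = 4)) ∨
      (q = 5 ∧ (Fintype.card β = 5 ∨ Fintype.card β = 6))) :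
    Nat.card {x : Perm β × Perm β // x.1 * x.2 = x.2 * x.1 ∧
      ∀ h ∈ Subgroup.centralizer ({x.1} : Set (Perm β)), sign h = 1} = (Fintype.card β) ! := by
  classical
  let f : {x : Perm β × Perm β // x.1 * x.2 = x.2 * x.1 ∧
      ∀ h ∈ Subgroup.centralizer ({x.1} : Set (Perm β)), sign h = 1} ≃
      (Σ g : {g : Perm β // g.cycleType = {q}},
        Subgroup.centralizer ({(g : Perm β)} : Set (Perm β))) :=
    { toFun := fun x => ⟨⟨x.1.1, (cent_le_iff hq x.1.1).1 x.2.2⟩,
        ⟨x.1.2, Subgroup.mem_centralizer_singleton_iff.2 x.2.1.symm⟩⟩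
      invFun := fun y => ⟨(y.1.1, y.2.1),
        (Subgroup.mem_centralizer_singleton_iff.1 y.2.2).symm, (cent_le_iff hq y.1.1).2 y.1.2⟩
      left_inv := fun x => rfl
      right_inv := fun y => rfl }
  rw [Nat.card_congr f, Nat.card_sigma]
  have h1 : ∀ g : {g : Perm β // g.cycleType = {q}},
      Nat.card (Subgroup.centralizer ({(g : Perm β)} : Set (Perm β))) = q :=
    fun g => card_cent hq g.1 g.2
  rw [Finset.sum_congr rfl fun g _ => h1 g, Finset.sum_const, Finset.card_univ, smul_eq_mul,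
    Fintype.card_subtype]
  have h2 := card_of_cycleType_mul_eq β ({q} : Multiset ℕ)
  have h3 : (Fintype.card β - q) ! = 1 := by
    have : Fintype.card β - q = 0 ∨ Fintype.card β - q = 1 := by omega
    rcases this with h | h <;> rw [h] <;> rfl
  rw [if_pos] at h2
  · simpa [h3] using h2
  · constructor
    · rw [Multiset.sum_singleton]; omega
    · intro a ha
      rw [Multiset.mem_singleton] at ha
      omega

theorem sym_small {q : ℕ}
    (hq : (q = 3 ∧ (Fintype.card β = 3 ∨ Fintype.card β = 4)) ∨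
      (q = 5 ∧ (Fintype.card β = 5 ∨ Fintype.card β = 6))) : q ∈ Ccomm (Perm β) := by
  have hp : q.Prime := by
    rcases hq with ⟨rfl, _⟩ | ⟨rfl, _⟩ <;> norm_num
  refine mem_Ccomm_of_character (sign : Perm β →* ℤˣ) hp 1 ?_ ?_
  · intro g hg
    rw [card_cent hq g ((cent_le_iff hq g).1 hg), pow_one]
  · rw [count_pairs hq]
    rcases hq with ⟨rfl, h | h⟩ | ⟨rfl, h | h⟩ <;> rw [h] <;> decide

end Pool.Agent.Lib.MP_5fbfc2_al
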